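import Mathlib

/-!
# Metric graphs, rational functions and their divisors
-/

set_option autoImplicit false

namespace Pool.Agent.V1140.AP

open Classical Topology

/-- A finite graph (loops and multiple edges allowed) in which every edge has a positive length. -/
structure MetricGraph where
  V : Type
  E : Type
  fV : Fintype V
  fE : Fintype E
  src : E → V
  tgt : E → V
  len : E → ℝ
  len_pos : ∀ e, 0 < len e

attribute [instance] MetricGraph.fV MetricGraph.fE

namespace MetricGraph

variable (G : MetricGraph)

/-- The points of the metric graph: vertices and inner points of edges. -/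
inductive Pt : Type
  | vert (v : G.V) : Pt
  | inner (e : G.E) (x : ℝ) (h : 0 < x ∧ x < G.len e) : Pt

/-- The point at distance `x` from the source of `e` (constant outside `[0, len e]`). -/
noncomputable def pt (e : G.E) (x : ℝ) : G.Pt :=
  if h : 0 < x ∧ x < G.len e then .inner e x h
  else if x ≤ 0 then .vert (G.src e) else .vert (G.tgt e)

/-- The point at distance `x` from the source (`b = true`) or from the target (`b = false`)
of `e`. -/
noncomputable def at' (e : G.E) (b : Bool) (x : ℝ) : G.Pt :=
  if b then G.pt e x else G.pt e (G.len e - x)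

/-- A set of points is open iff its preimage under each edge chart is open. -/
noncomputable instance : TopologicalSpace G.Pt := ⨆ e : G.E, TopologicalSpace.coinduced (G.pt e) inferInstance

variable {G}

theorem isOpen_iff {U : Set G.Pt} : IsOpen U ↔ ∀ e, IsOpen (G.pt e ⁻¹' U) := by
  rw [isOpen_iSup_iff]
  rfl

theorem pt_inner {e : G.E} {x : ℝ} (h : 0 < x ∧ x < G.len e) : G.pt e x = .inner e x h := by
  unfold pt; rw [dif_pos h]

theorem pt_le {e : G.E} {x : ℝ} (h : x ≤ 0) : G.pt e x = .vert (G.src e) := by
  unfold pt; rw [dif_neg (by intro h'; linarith [h'.1]), if_pos h]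

theorem pt_ge {e : G.E} {x : ℝ} (h : G.len e ≤ x) : G.pt e x = .vert (G.tgt e) := by
  unfold pt
  rw [dif_neg (by intro h'; linarith [h'.2]), if_neg]
  have := G.len_pos e
  linarith

/-- The edge containing an inner point. -/
def edge : G.Pt → Option G.E
  | .vert _ => none
  | .inner e _ _ => some e

theorem edge_pt {e e' : G.E} {x x' : ℝ} {hx : 0 < x' ∧ x' < G.len e'}
    (h : G.pt e x = .inner e' x' hx) : e = e' := by
  by_cases h1 : 0 < x ∧ x < G.len e
  · rw [pt_inner h1] at h
    have h2 := congrArg edge h
    simpa [edge] using h2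
  · exfalso
    unfold pt at h
    rw [dif_neg h1] at h
    split_ifs at h

theorem at_true (e : G.E) (x : ℝ) : G.at' e true x = G.pt e x := rfl

theorem at_false (e : G.E) (x : ℝ) : G.at' e false x = G.pt e (G.len e - x) := rfl

theorem at_not (e : G.E) (b : Bool) (x : ℝ) : G.at' e (!b) x = G.at' e b (G.len e - x) := by
  cases b
  · simp [at', sub_sub_cancel]
  · rfl

theorem continuous_pt (e : G.E) : Continuous (G.pt e) := by
  rw [continuous_def]
  intro U hU
  exact isOpen_iff.1 hU e

theorem continuous_at (e : G.E) (b : Bool) : Continuous (G.at' e b) := by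
  cases b
  · exact (continuous_pt e).comp (continuous_const.sub continuous_id)
  · exact continuous_pt e

/-- Openness can be checked along the directions leaving the points of the set. -/
theorem isOpen_of_dir {U : Set G.Pt}
    (h : ∀ e b x, 0 ≤ x → x < G.len e → G.at' e b x ∈ U →
      ∃ ε > 0, ∀ t, 0 ≤ t → t < ε → G.at' e b (x + t) ∈ U) : IsOpen U := by
  rw [isOpen_iff]
  intro e
  rw [Metric.isOpen_iff]
  intro x hx
  have hx' : G.pt e x ∈ U := hx
  have hlen := G.len_pos e
  -- right side
  have hr : ∃ ε > 0, ∀ t, 0 ≤ t → t < ε → G.pt e (x + t) ∈ U := by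
    rcases lt_or_ge x 0 with h1 | h1
    · refine ⟨-x, by linarith, fun t _ ht => ?_⟩
      rw [pt_le (by linarith)]
      rwa [pt_le h1.le] at hx'
    · rcases lt_or_ge x (G.len e) with h2 | h2
      · exact h e true x h1 h2 hx'
      · refine ⟨1, one_pos, fun t ht _ => ?_⟩
        rw [pt_ge (by linarith)]
        rwa [pt_ge h2] at hx'
  have hl : ∃ ε > 0, ∀ t, 0 ≤ t → t < ε → G.pt e (x - t) ∈ U := by
    rcases le_or_gt x 0 with h1 | h1
    · refine ⟨1, one_pos, fun t ht _ => ?_⟩
      rw [pt_le (by linarith)]
      rwa [pt_le h1] at hx'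
    · rcases le_or_gt x (G.len e) with h2 | h2
      · obtain ⟨ε, hε, h3⟩ := h e false (G.len e - x) (by linarith) (by linarith) (by
          rw [at_false, sub_sub_cancel]; exact hx')
        refine ⟨ε, hε, fun t ht ht' => ?_⟩
        have := h3 t ht ht'
        rw [at_false] at this
        rwa [show G.len e - (G.len e - x + t) = x - t by ring] at this
      · refine ⟨x - G.len e, by linarith, fun t _ ht => ?_⟩
        rw [pt_ge (by linarith)]
        rwa [pt_ge h2.le] at hx'
  obtain ⟨ε₁, hε₁, h1⟩ := hr
  obtain ⟨ε₂, hε₂, h2⟩ := hl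
  refine ⟨min ε₁ ε₂, lt_min hε₁ hε₂, ?_⟩
  intro y hy
  rw [Metric.mem_ball, Real.dist_eq] at hy
  rcases le_or_gt x y with hxy | hxy
  · have := h1 (y - x) (by linarith) (by
      rw [abs_of_nonneg (by linarith)] at hy
      exact lt_of_lt_of_le hy (min_le_left _ _))
    rwa [add_sub_cancel] at this
  · have := h2 (x - y) (by linarith) (by
      rw [abs_of_neg (by linarith)] at hy
      have := lt_of_lt_of_le hy (min_le_right _ _)
      linarith)
    rwa [sub_sub_cancel] at this

/-- Conversely, open sets contain small segments. -/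
theorem dir_of_isOpen {U : Set G.Pt} (hU : IsOpen U) {e : G.E} {b : Bool} {x : ℝ}
    (hx : G.at' e b x ∈ U) : ∃ ε > 0, ∀ t, 0 ≤ t → t < ε → G.at' e b (x + t) ∈ U := by
  have h := Metric.isOpen_iff.1 ((continuous_at e b).isOpen_preimage U hU) x hx
  obtain ⟨ε, hε, h⟩ := h
  refine ⟨ε, hε, fun t ht ht' => h ?_⟩
  rw [Metric.mem_ball, Real.dist_eq]
  rw [abs_of_nonneg (by linarith)]
  linarith

instance : CompactSpace G.Pt := by
  constructor
  have h : (Set.univ : Set G.Pt) =
      (⋃ e : G.E, G.pt e '' Set.Icc 0 (G.len e)) ∪ Set.range Pt.vert := by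
    refine (Set.eq_univ_of_forall ?_).symm
    intro y
    cases y with
    | vert v => exact Or.inr ⟨v, rfl⟩
    | inner e x h =>
      refine Or.inl (Set.mem_iUnion.2 ⟨e, x, ⟨h.1.le, h.2.le⟩, pt_inner h⟩)
  rw [h]
  exact (isCompact_iUnion fun e => isCompact_Icc.image (continuous_pt e)).union
    (Set.finite_range _).isCompact

/-- `f` has outgoing slope `m` when leaving `at' e b x` in the direction `b`. -/
def HasSlope (f : G.Pt → ℝ) (e : G.E) (b : Bool) (x : ℝ) (m : ℤ) : Prop :=
  ∃ ε > 0, ∀ t, 0 ≤ t → t < ε → f (G.at' e b (x + t)) = f (G.at' e b x) + m * t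

/-- `S` gives the outgoing slopes of `f` in all directions. -/
def Slopes (f : G.Pt → ℝ) (S : G.E → Bool → ℝ → ℤ) : Prop :=
  ∀ e b x, 0 ≤ x → x < G.len e → HasSlope f e b x (S e b x)

/-- The sum of the outgoing slopes at a point. -/
noncomputable def slopeSum (S : G.E → Bool → ℝ → ℤ) : G.Pt → ℤ
  | .vert v => ∑ e, ((if G.src e = v then S e true 0 else 0) +
      (if G.tgt e = v then S e false 0 else 0))
  | .inner e x _ => S e true x + S e false (G.len e - x)

/-- `f` is a rational function (continuous, piecewise linear with integer slopes) with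
divisor `D`. -/
def IsDiv (f : G.Pt → ℝ) (D : G.Pt → ℤ) : Prop :=
  ∃ S, Slopes f S ∧ ∀ y, D y = slopeSum S y

/-- Linear equivalence. -/
def LinEq (D D' : G.Pt → ℤ) : Prop := ∃ f, IsDiv f (fun y => D y - D' y)

/-- coordinate of a point along a direction -/
noncomputable def co (b : Bool) : G.Pt → ℝ
  | .vert _ => 0
  | .inner e x _ => if b then x else G.len e - x

theorem co_spec {e : G.E} {b : Bool} {x : ℝ} (h0 : 0 ≤ x) (h1 : x < G.len e) :
    co b (G.at' e b x) = x := by
  rcases h0.eq_or_lt with h | h
  · subst h
    cases b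
    · rw [at_false, sub_zero, pt_ge le_rfl]; rfl
    · rw [at_true, pt_le le_rfl]; rfl
  · cases b
    · rw [at_false, pt_inner ⟨by linarith, by linarith⟩]
      simp [co]
    · rw [at_true, pt_inner ⟨h, h1⟩]
      simp [co]

theorem co_range {e : G.E} {b : Bool} {y : G.Pt} (h : G.at' e b (co b y) = y) :
    0 ≤ co b y ∧ co b y < G.len e := by
  cases y with
  | vert v => exact ⟨le_rfl, G.len_pos e⟩
  | inner e' x hx =>
    have he : e' = e := by
      cases b
      · rw [at_false] at h
        exact (edge_pt h).symm
      · rw [at_true] at h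
        exact (edge_pt h).symm
    subst he
    cases b
    · simp only [co]
      constructor
      · simp; linarith [hx.2]
      · simp; linarith [hx.1]
    · simp only [co]
      exact ⟨hx.1.le, hx.2⟩

theorem at_co_vert (e : G.E) (b : Bool) (v : G.V) :
    (G.at' e b (co b (.vert v)) = .vert v) ↔ (if b then G.src e else G.tgt e) = v := by
  cases b
  · simp only [co]
    rw [at_false, sub_zero, pt_ge le_rfl]
    simp
  · simp only [co]
    rw [at_true, pt_le le_rfl]
    simp

theorem at_co_inner (e : G.E) (b : Bool) (e' : G.E) (x : ℝ) (hx : 0 < x ∧ x < G.len e') :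
    (G.at' e b (co b (.inner e' x hx)) = .inner e' x hx) ↔ e = e' := by
  constructor
  · intro h
    cases b
    · rw [at_false] at h
      exact edge_pt h
    · rw [at_true] at h
      exact edge_pt h
  · rintro rfl
    cases b
    · simp only [co]
      rw [at_false]
      simp only [Bool.false_eq_true, if_false, sub_sub_cancel]
      exact pt_inner hx
    · simp only [co]
      exact pt_inner hx

/-- Uniform formula for the sum of outgoing slopes. -/
theorem slopeSum_eq (S : G.E → Bool → ℝ → ℤ) (y : G.Pt) :
    slopeSum S y = ∑ e, ∑ b : Bool, if G.at' e b (co b y) = y then S e b (co b y) else 0 := by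
  cases y with
  | vert v =>
    refine Finset.sum_congr rfl fun e _ => ?_
    rw [Fintype.sum_bool]
    simp only [at_co_vert]
    simp [co]
  | inner e' x hx =>
    have h : ∀ e, (∑ b : Bool, if G.at' e b (co b (.inner e' x hx)) = .inner e' x hx
        then S e b (co b (.inner e' x hx)) else 0) =
        if e = e' then S e true x + S e false (G.len e' - x) else 0 := by
      intro e
      rw [Fintype.sum_bool]
      simp only [at_co_inner]
      split_ifs with he
      · simp [co]
      · rfl
    simp only [h, Finset.sum_ite_eq', Finset.mem_univ, if_true, slopeSum]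

end MetricGraph

end Pool.Agent.V1140.AP
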