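import Pool.Agent.V1140.AP.Cover

/-!
# The number of positive directions on the zero set
-/

set_option autoImplicit false

namespace Pool.Agent.V1140.AP

open Classical Topology

namespace MetricGraph

section general

variable {G : MetricGraph}

theorem slopeSum_congr {S S' : G.E → Bool → ℝ → ℤ} {y : G.Pt}
    (h : ∀ e b x, 0 ≤ x → x < G.len e → G.at' e b x = y → S e b x = S' e b x) :
    slopeSum S y = slopeSum S' y := by
  rw [slopeSum_eq, slopeSum_eq]
  refine Finset.sum_congr rfl fun e _ => Finset.sum_congr rfl fun b _ => ?_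
  split_ifs with h1
  · exact h e b _ (co_range h1).1 (co_range h1).2 h1
  · rfl

/-- The sum of the positive outgoing slopes. -/
noncomputable def posSum (S : G.E → Bool → ℝ → ℤ) (y : G.Pt) : ℤ :=
  slopeSum (fun e b x => max (S e b x) 0) y

theorem posSum_eq (S : G.E → Bool → ℝ → ℤ) (y : G.Pt) :
    posSum S y = ∑ d : G.E × Bool,
      if G.at' d.1 d.2 (co d.2 y) = y then max (S d.1 d.2 (co d.2 y)) 0 else 0 := by
  unfold posSum
  rw [slopeSum_eq, Fintype.sum_prod_type]

theorem posSum_nonneg (S : G.E → Bool → ℝ → ℤ) (y : G.Pt) : 0 ≤ posSum S y := by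
  rw [posSum_eq]
  refine Finset.sum_nonneg fun d _ => ?_
  split_ifs
  · exact le_max_right _ _
  · exact le_rfl

theorem le_posSum (S : G.E → Bool → ℝ → ℤ) {y : G.Pt} {e : G.E} {b : Bool} {x : ℝ}
    (h0 : 0 ≤ x) (h1 : x < G.len e) (h : G.at' e b x = y) : S e b x ≤ posSum S y := by
  have hx : co b y = x := by rw [← h]; exact co_spec h0 h1
  rw [posSum_eq]
  have h2 : (if G.at' (e, b).1 (e, b).2 (co (e, b).2 y) = y then
      max (S (e, b).1 (e, b).2 (co (e, b).2 y)) 0 else 0) ≤ ∑ d : G.E × Bool,
      if G.at' d.1 d.2 (co d.2 y) = y then max (S d.1 d.2 (co d.2 y)) 0 else 0 := by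
    refine Finset.single_le_sum (f := fun d : G.E × Bool =>
      if G.at' d.1 d.2 (co d.2 y) = y then max (S d.1 d.2 (co d.2 y)) 0 else 0)
      (fun d _ => ?_) (Finset.mem_univ _)
    show (0 : ℤ) ≤ if _ then _ else _
    split_ifs
    · exact le_max_right _ _
    · exact le_rfl
  refine le_trans ?_ h2
  simp only [hx]
  rw [if_pos h]
  exact le_max_left _ _

theorem add_le_posSum (S : G.E → Bool → ℝ → ℤ) {y : G.Pt} {e e' : G.E} {b b' : Bool} {x x' : ℝ}
    (h0 : 0 ≤ x) (h1 : x < G.len e) (h : G.at' e b x = y)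
    (h0' : 0 ≤ x') (h1' : x' < G.len e') (h' : G.at' e' b' x' = y) (hne : (e, b) ≠ (e', b')) :
    S e b x + S e' b' x' ≤ posSum S y := by
  have hx : co b y = x := by rw [← h]; exact co_spec h0 h1
  have hx' : co b' y = x' := by rw [← h']; exact co_spec h0' h1'
  rw [posSum_eq]
  have h2 : ∑ d ∈ ({(e, b), (e', b')} : Finset (G.E × Bool)),
      (if G.at' d.1 d.2 (co d.2 y) = y then max (S d.1 d.2 (co d.2 y)) 0 else 0) ≤
      ∑ d : G.E × Bool,
      if G.at' d.1 d.2 (co d.2 y) = y then max (S d.1 d.2 (co d.2 y)) 0 else 0 := by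
    refine Finset.sum_le_univ_sum_of_nonneg (fun d => ?_)
    split_ifs
    · exact le_max_right _ _
    · exact le_rfl
  rw [Finset.sum_pair hne] at h2
  simp only [hx, hx'] at h2
  rw [if_pos h, if_pos h'] at h2
  exact le_trans (add_le_add (le_max_left _ _) (le_max_left _ _)) h2

theorem exists_pos {S : G.E → Bool → ℝ → ℤ} {y : G.Pt} (h : 0 < posSum S y) :
    ∃ e b x, 0 ≤ x ∧ x < G.len e ∧ G.at' e b x = y ∧ 0 < S e b x := by
  by_contra hcon
  push Not at hcon
  have h1 : posSum S y = 0 := by
    rw [posSum_eq]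
    refine Finset.sum_eq_zero fun d _ => ?_
    split_ifs with h2
    · exact max_eq_right (hcon d.1 d.2 _ (co_range h2).1 (co_range h2).2 h2)
    · rfl
  omega

theorem isOpen_compl_singleton' (a : G.Pt) : IsOpen ({a}ᶜ : Set G.Pt) := by
  apply isOpen_of_dir
  intro e b x h0 h1 hx
  have hx' : G.at' e b x ≠ a := hx
  refine ⟨min (G.len e - x) (if x < co b a then co b a - x else 1), ?_, ?_⟩
  · apply lt_min (by linarith)
    split_ifs
    · linarith
    · exact one_pos
  · intro t ht ht' hta
    have hta' : G.at' e b (x + t) = a := hta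
    have h2 : t < G.len e - x := lt_of_lt_of_le ht' (min_le_left _ _)
    have h3 : t < if x < co b a then co b a - x else 1 := lt_of_lt_of_le ht' (min_le_right _ _)
    have h4 : co b a = x + t := by
      rw [← hta']
      exact co_spec (by linarith) (by linarith)
    rcases ht.eq_or_lt with h5 | h5
    · rw [← h5, add_zero] at hta'
      exact hx' hta'
    · rw [if_pos (by linarith)] at h3
      linarith

end general

variable {G : MetricGraph} {σ : G.E → Bool}

theorem bound {p q : (G.cover σ).Pt} {f : (G.cover σ).Pt → ℝ}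
    {S : (G.cover σ).E → Bool → ℝ → ℤ} (hS : Slopes f S)
    (hD : ∀ y, slopeSum S y = prym p y - prym q y) (A : Finset (G.cover σ).Pt)
    (hA : ∀ y ∈ A, f y = 0) :
    ∑ y ∈ A, posSum S y ≤ (if 0 < f (iota p) then 1 else 0) + (if 0 < f q then 1 else 0) := by
  have hcont := continuous_of_slopes hS
  set fp : (G.cover σ).Pt → ℝ := fun y => max (f y) 0 with hfp
  set Sp : (G.cover σ).E → Bool → ℝ → ℤ := fun e b x =>
    if 0 < f ((G.cover σ).at' e b x) then S e b x
    else if f ((G.cover σ).at' e b x) < 0 then 0 else max (S e b x) 0 with hSp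
  have hslopes : Slopes fp Sp := by
    intro e b x h0 h1
    obtain ⟨ε, hε, h2⟩ := hS e b x h0 h1
    rcases lt_trichotomy (f ((G.cover σ).at' e b x)) 0 with h3 | h3 | h3
    · have hop : IsOpen {y | f y < 0} := isOpen_lt hcont continuous_const
      obtain ⟨ε', hε', h4⟩ := dir_of_isOpen hop (show (G.cover σ).at' e b x ∈ {y | f y < 0} from h3)
      refine ⟨ε', hε', fun t ht ht' => ?_⟩
      have h5 : f ((G.cover σ).at' e b (x + t)) < 0 := h4 t ht ht'
      simp only [hfp, hSp]
      rw [if_neg (not_lt.2 h3.le), if_pos h3, max_eq_right h5.le, max_eq_right h3.le]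
      simp
    · refine ⟨ε, hε, fun t ht ht' => ?_⟩
      have h5 := h2 t ht ht'
      simp only [hfp, hSp]
      rw [h5, h3, if_neg (lt_irrefl _), if_neg (lt_irrefl _), zero_add, max_self, zero_add]
      push_cast
      rcases le_total (S e b x : ℝ) 0 with h6 | h6
      · rw [max_eq_right h6, zero_mul]
        exact max_eq_right (mul_nonpos_of_nonpos_of_nonneg h6 ht)
      · rw [max_eq_left h6]
        exact max_eq_left (mul_nonneg h6 ht)
    · have hop : IsOpen {y | 0 < f y} := isOpen_lt continuous_const hcont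
      obtain ⟨ε', hε', h4⟩ := dir_of_isOpen hop (show (G.cover σ).at' e b x ∈ {y | 0 < f y} from h3)
      refine ⟨min ε ε', lt_min hε hε', fun t ht ht' => ?_⟩
      have h5 : 0 < f ((G.cover σ).at' e b (x + t)) :=
        h4 t ht (lt_of_lt_of_le ht' (min_le_right _ _))
      have h6 := h2 t ht (lt_of_lt_of_le ht' (min_le_left _ _))
      simp only [hfp, hSp]
      rw [if_pos h3, max_eq_left h5.le, max_eq_left h3.le, h6]
  have hs1 : ∀ y, 0 < f y → slopeSum Sp y = slopeSum S y := by
    intro y hy
    refine slopeSum_congr fun e b x _ _ h => ?_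
    simp only [hSp, h]
    rw [if_pos hy]
  have hs2 : ∀ y, f y < 0 → slopeSum Sp y = 0 := by
    intro y hy
    have h1 : slopeSum Sp y = slopeSum (fun _ _ _ => 0) y := by
      refine slopeSum_congr fun e b x _ _ h => ?_
      simp only [hSp, h]
      rw [if_neg (not_lt.2 hy.le), if_pos hy]
    rw [h1, slopeSum_eq]
    simp
  have hs3 : ∀ y, f y = 0 → slopeSum Sp y = posSum S y := by
    intro y hy
    unfold posSum
    refine slopeSum_congr fun e b x _ _ h => ?_
    simp only [hSp, h, hy]
    rw [if_neg (lt_irrefl _), if_neg (lt_irrefl _)]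
  have hlow : ∀ y, (if y ∈ A then posSum S y else 0) -
      (if y = iota p then (if 0 < f (iota p) then 1 else 0) else 0) -
      (if y = q then (if 0 < f q then 1 else 0) else 0) ≤ slopeSum Sp y := by
    intro y
    rcases lt_trichotomy (f y) 0 with h3 | h3 | h3
    · rw [hs2 y h3]
      have h4 : y ∉ A := fun h => by rw [hA y h] at h3; exact lt_irrefl _ h3
      rw [if_neg h4]
      split_ifs <;> norm_num
    · rw [hs3 y h3]
      have := posSum_nonneg S y
      split_ifs <;> linarith
    · rw [hs1 y h3, hD]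
      have h4 : y ∉ A := fun h => by rw [hA y h] at h3; exact lt_irrefl _ h3
      rw [if_neg h4]
      have h5 : (if y = iota p then (if 0 < f (iota p) then (1 : ℤ) else 0) else 0) =
          if y = iota p then 1 else 0 := by
        by_cases h : y = iota p
        · rw [if_pos h, if_pos h, if_pos (h ▸ h3)]
        · rw [if_neg h, if_neg h]
      have h6 : (if y = q then (if 0 < f q then (1 : ℤ) else 0) else 0) =
          if y = q then 1 else 0 := by
        by_cases h : y = q
        · rw [if_pos h, if_pos h, if_pos (h ▸ h3)]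
        · rw [if_neg h, if_neg h]
      rw [h5, h6]
      unfold prym
      have h7 : (0 : ℤ) ≤ if y = p then 1 else 0 := by split_ifs <;> norm_num
      have h8 : (0 : ℤ) ≤ if y = iota q then 1 else 0 := by split_ifs <;> norm_num
      linarith
  set W : Finset (G.cover σ).Pt := (Finset.univ.image Pt.vert ∪ A) ∪ {iota p, q} with hW
  have hVW : ∀ v, Pt.vert v ∈ W := by
    intro v
    simp [hW]
  have hAW : A ⊆ W := by
    intro y hy
    simp [hW, hy]
  have hpW : iota p ∈ W := by simp [hW]
  have hqW : q ∈ W := by simp [hW]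
  have hst := stokes_le hslopes W hVW (by
    intro y hy
    refine le_trans ?_ (hlow y)
    have h1 : y ∉ A := fun h => hy (hAW h)
    have h2 : y ≠ iota p := fun h => hy (h ▸ hpW)
    have h3 : y ≠ q := fun h => hy (h ▸ hqW)
    rw [if_neg h1, if_neg h2, if_neg h3]
    norm_num)
  have hsum := Finset.sum_le_sum (s := W) (fun y _ => hlow y)
  rw [Finset.sum_sub_distrib, Finset.sum_sub_distrib, Finset.sum_ite_eq', Finset.sum_ite_eq',
    if_pos hpW, if_pos hqW, ← Finset.sum_filter] at hsum
  have hfil : W.filter (· ∈ A) = A := by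
    ext y
    simp only [Finset.mem_filter]
    exact ⟨fun h => h.2, fun h => ⟨hAW h, h⟩⟩
  rw [hfil] at hsum
  linarith

end MetricGraph

end Pool.Agent.V1140.AP
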