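import Pool.Agent.V1140.AP.Stokes

/-!
# Free double covers of metric graphs
-/

set_option autoImplicit false

namespace Pool.Agent.V1140.AP

open Classical Topology

namespace MetricGraph

/-- The free double cover of `G` in which the edge `e` joins equal sheets if `σ e = false` and
different sheets if `σ e = true`. -/
def cover (G : MetricGraph) (σ : G.E → Bool) : MetricGraph where
  V := G.V × Bool
  E := G.E × Bool
  fV := inferInstance
  fE := inferInstance
  src e := (G.src e.1, e.2)
  tgt e := (G.tgt e.1, xor e.2 (σ e.1))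
  len e := G.len e.1
  len_pos e := G.len_pos e.1

variable {G : MetricGraph} {σ : G.E → Bool}

/-- The other edge over the same edge of the base. -/
def iE (e : (G.cover σ).E) : (G.cover σ).E := (e.1, !e.2)

/-- The involution of the double cover. -/
def iota : (G.cover σ).Pt → (G.cover σ).Pt
  | .vert v => .vert (v.1, !v.2)
  | .inner e x h => .inner (iE e) x h

/-- The covering map. -/
def proj : (G.cover σ).Pt → G.Pt
  | .vert v => .vert v.1
  | .inner e x h => .inner e.1 x h

theorem iE_iE (e : (G.cover σ).E) : iE (iE e) = e := by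
  simp [iE]

theorem iE_ne (e : (G.cover σ).E) : iE e ≠ e := by
  intro h
  have := congrArg Prod.snd h
  simp [iE] at this

theorem iota_iota (y : (G.cover σ).Pt) : iota (iota y) = y := by
  cases y with
  | vert v => simp [iota]
  | inner e x h => simp [iota, iE_iE]

theorem iota_ne (y : (G.cover σ).Pt) : iota y ≠ y := by
  cases y with
  | vert v =>
    intro h
    simp only [iota, Pt.vert.injEq] at h
    have := congrArg Prod.snd h
    simp at this
  | inner e x h =>
    intro h'
    simp only [iota, Pt.inner.injEq] at h'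
    exact iE_ne e h'.1

theorem iota_pt (e : (G.cover σ).E) (x : ℝ) :
    iota ((G.cover σ).pt e x) = (G.cover σ).pt (iE e) x := by
  by_cases h : 0 < x ∧ x < (G.cover σ).len e
  · rw [pt_inner h, pt_inner (e := iE e) h]
    rfl
  · by_cases h1 : x ≤ 0
    · rw [pt_le h1, pt_le h1]
      rfl
    · have h2 : (G.cover σ).len e ≤ x := by
        by_contra h3
        push Not at h1 h3
        exact h ⟨h1, h3⟩
      rw [pt_ge h2, pt_ge (e := iE e) h2]
      simp only [iota, Pt.vert.injEq]
      show ((G.tgt e.1), !(xor e.2 (σ e.1))) = (G.tgt e.1, xor (!e.2) (σ e.1))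
      cases e.2 <;> cases σ e.1 <;> rfl

theorem iota_at (e : (G.cover σ).E) (b : Bool) (x : ℝ) :
    iota ((G.cover σ).at' e b x) = (G.cover σ).at' (iE e) b x := by
  cases b
  · rw [at_false, at_false, iota_pt]; rfl
  · rw [at_true, at_true, iota_pt]

theorem proj_iota (y : (G.cover σ).Pt) : proj (iota y) = proj y := by
  cases y <;> rfl

theorem proj_pt (e : (G.cover σ).E) (x : ℝ) :
    proj ((G.cover σ).pt e x) = G.pt e.1 x := by
  by_cases h : 0 < x ∧ x < (G.cover σ).len e
  · rw [pt_inner h, pt_inner (e := e.1) h]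
    rfl
  · by_cases h1 : x ≤ 0
    · rw [pt_le h1, pt_le h1]
      rfl
    · have h2 : (G.cover σ).len e ≤ x := by
        by_contra h3
        push Not at h1 h3
        exact h ⟨h1, h3⟩
      rw [pt_ge h2, pt_ge (e := e.1) h2]
      rfl

theorem proj_at (e : (G.cover σ).E) (b : Bool) (x : ℝ) :
    proj ((G.cover σ).at' e b x) = G.at' e.1 b x := by
  cases b
  · rw [at_false, at_false, proj_pt]; rfl
  · rw [at_true, at_true, proj_pt]

theorem eq_or_iota_of_proj {y z : (G.cover σ).Pt} (h : proj y = proj z) :
    z = y ∨ z = iota y := by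
  cases y with
  | vert v =>
    cases z with
    | vert w =>
      simp only [proj, Pt.vert.injEq] at h
      obtain ⟨v1, v2⟩ := v
      obtain ⟨w1, w2⟩ := w
      simp only at h
      subst h
      cases v2 <;> cases w2 <;> simp [iota]
    | inner e x hx => simp [proj] at h
  | inner e x hx =>
    cases z with
    | vert w => simp [proj] at h
    | inner e' x' hx' =>
      simp only [proj, Pt.inner.injEq] at h
      obtain ⟨h1, h2⟩ := h
      obtain ⟨e1, e2⟩ := e
      obtain ⟨e1', e2'⟩ := e'
      simp only at h1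
      subst h1
      subst h2
      cases e2 <;> cases e2' <;> simp [iota, iE]

theorem proj_surj (w : G.Pt) : ∃ z : (G.cover σ).Pt, proj z = w := by
  cases w with
  | vert v => exact ⟨.vert (v, false), rfl⟩
  | inner e x h => exact ⟨.inner (e, false) x h, rfl⟩

theorem co_iota (b : Bool) (y : (G.cover σ).Pt) : co b (iota y) = co b y := by
  cases y <;> rfl

theorem slopeSum_iota (S : (G.cover σ).E → Bool → ℝ → ℤ) (y : (G.cover σ).Pt) :
    slopeSum (fun e b x => S (iE e) b x) y = slopeSum S (iota y) := by
  rw [slopeSum_eq, slopeSum_eq]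
  have hinv : Function.Involutive (iE : (G.cover σ).E → (G.cover σ).E) := iE_iE
  rw [← Equiv.sum_comp (hinv.toPerm iE)]
  refine Finset.sum_congr rfl fun e _ => Finset.sum_congr rfl fun b _ => ?_
  show (if (G.cover σ).at' (iE e) b (co b y) = y then S (iE (iE e)) b (co b y) else 0) =
    if (G.cover σ).at' e b (co b (iota y)) = iota y then S e b (co b (iota y)) else 0
  rw [iE_iE, co_iota, ← iota_at]
  have : (iota ((G.cover σ).at' e b (co b y)) = y) ↔ ((G.cover σ).at' e b (co b y) = iota y) := by
    constructor
    · intro h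
      have h' := congrArg iota h
      rwa [iota_iota] at h'
    · intro h; rw [h, iota_iota]
  simp only [this]

/-- The divisor `p - ι p`. -/
noncomputable def prym (p : (G.cover σ).Pt) (y : (G.cover σ).Pt) : ℤ :=
  (if y = p then 1 else 0) - (if y = iota p then 1 else 0)

/-- `Ψ₁ p = Ψ₁ q`, i.e. `p - ι p` and `q - ι q` are linearly equivalent. -/
def SamePrym (p q : (G.cover σ).Pt) : Prop := LinEq (prym p) (prym q)

theorem slope_unique {G : MetricGraph} {f : G.Pt → ℝ} {e : G.E} {b : Bool} {x : ℝ} {m m' : ℤ}
    (h : HasSlope f e b x m) (h' : HasSlope f e b x m') : m = m' := by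
  obtain ⟨ε, hε, h⟩ := h
  obtain ⟨ε', hε', h'⟩ := h'
  have hmin : 0 < min ε ε' := lt_min hε hε'
  have hlt := half_lt_self hmin
  have h1 := h (min ε ε' / 2) (by linarith) (lt_of_lt_of_le hlt (min_le_left _ _))
  have h2 := h' (min ε ε' / 2) (by linarith) (lt_of_lt_of_le hlt (min_le_right _ _))
  have h3 : ((m : ℝ) - m') * (min ε ε' / 2) = 0 := by linarith
  rcases mul_eq_zero.1 h3 with h4 | h4
  · have : (m : ℝ) = m' := by linarith
    exact_mod_cast this
  · linarith

theorem slopeSum_add {G : MetricGraph} (S S' : G.E → Bool → ℝ → ℤ) (y : G.Pt) :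
    slopeSum (fun e b x => S e b x + S' e b x) y = slopeSum S y + slopeSum S' y := by
  rw [slopeSum_eq, slopeSum_eq, slopeSum_eq, ← Finset.sum_add_distrib]
  refine Finset.sum_congr rfl fun e _ => ?_
  rw [← Finset.sum_add_distrib]
  refine Finset.sum_congr rfl fun b _ => ?_
  split_ifs <;> simp

theorem slopeSum_sub {G : MetricGraph} (S S' : G.E → Bool → ℝ → ℤ) (y : G.Pt) :
    slopeSum (fun e b x => S e b x - S' e b x) y = slopeSum S y - slopeSum S' y := by
  rw [slopeSum_eq, slopeSum_eq, slopeSum_eq, ← Finset.sum_sub_distrib]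
  refine Finset.sum_congr rfl fun e _ => ?_
  rw [← Finset.sum_sub_distrib]
  refine Finset.sum_congr rfl fun b _ => ?_
  split_ifs <;> simp

/-- After subtracting a constant, a function with divisor `(p - ιp) - (q - ιq)` is
anti-invariant. -/
theorem normalise [PreconnectedSpace (G.cover σ).Pt] {p q : (G.cover σ).Pt}
    (h : SamePrym p q) : ∃ (f : (G.cover σ).Pt → ℝ) (S : (G.cover σ).E → Bool → ℝ → ℤ),
      Slopes f S ∧ (∀ y, slopeSum S y = prym p y - prym q y) ∧ (∀ y, f (iota y) = - f y) ∧
      (∀ e b x, 0 ≤ x → x < (G.cover σ).len e → S (iE e) b x = - S e b x) := by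
  obtain ⟨f, S, hS, hD⟩ := h
  -- the invariant part is harmonic
  set F : (G.cover σ).Pt → ℝ := fun y => f y + f (iota y) with hF
  have hSF : Slopes F (fun e b x => S e b x + S (iE e) b x) := by
    intro e b x h0 h1
    obtain ⟨ε, hε, h2⟩ := hS e b x h0 h1
    obtain ⟨ε', hε', h3⟩ := hS (iE e) b x h0 h1
    refine ⟨min ε ε', lt_min hε hε', fun t ht ht' => ?_⟩
    have h4 := h2 t ht (lt_of_lt_of_le ht' (min_le_left _ _))
    have h5 := h3 t ht (lt_of_lt_of_le ht' (min_le_right _ _))
    simp only [hF, iota_at, h4, h5]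
    push_cast
    ring
  have hharm : ∀ y, slopeSum (fun e b x => S e b x + S (iE e) b x) y = 0 := by
    intro y
    rw [slopeSum_add S (fun e b x => S (iE e) b x), slopeSum_iota, ← hD, ← hD]
    show (prym p y - prym q y) + (prym p (iota y) - prym q (iota y)) = 0
    have h1 : ∀ p : (G.cover σ).Pt, prym p (iota y) = - prym p y := by
      intro p
      unfold prym
      have e1 : (iota y = p) ↔ (y = iota p) :=
        ⟨fun h => by rw [← h, iota_iota], fun h => by rw [h, iota_iota]⟩
      have e2 : (iota y = iota p) ↔ (y = p) :=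
        ⟨fun h => by rw [← iota_iota y, h, iota_iota], fun h => by rw [h]⟩
      simp only [e1, e2]
      ring
    rw [h1, h1]
    ring
  by_cases hne : Nonempty (G.cover σ).Pt
  · obtain ⟨y₀⟩ := hne
    set c := F y₀ with hc
    have hconst : ∀ y, F y = c := fun y => harmonic_const hSF hharm y y₀
    refine ⟨fun y => f y - c / 2, S, ?_, ?_, ?_, ?_⟩
    · intro e b x h0 h1
      obtain ⟨ε, hε, h2⟩ := hS e b x h0 h1
      refine ⟨ε, hε, fun t ht ht' => ?_⟩
      simp only [h2 t ht ht']
      ring
    · intro y; exact (hD y).symm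
    · intro y
      have := hconst y
      simp only [hF] at this
      linarith
    · intro e b x h0 h1
      have h2 := hS (iE e) b x h0 h1
      refine slope_unique h2 ?_
      obtain ⟨ε, hε, h3⟩ := hS e b x h0 h1
      refine ⟨ε, hε, fun t ht ht' => ?_⟩
      have h4 := hconst ((G.cover σ).at' e b (x + t))
      have h5 := hconst ((G.cover σ).at' e b x)
      have h6 := h3 t ht ht'
      simp only [hF, iota_at] at h4 h5
      push_cast
      linarith
  · exact absurd ⟨p⟩ hne

end MetricGraph

end Pool.Agent.V1140.AP
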