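import Pool.Agent.V1140.AP.Zero

/-!
# Sliding along the positive direction
-/

set_option autoImplicit false

namespace Pool.Agent.V1140.AP

open Classical Topology

namespace MetricGraph

variable {G : MetricGraph} {σ : G.E → Bool}

/-- The open segment of length `s` leaving `at' e₀ b₀ x₀` in the direction `b₀`. -/
def seg {H : MetricGraph} (e₀ : H.E) (b₀ : Bool) (x₀ s : ℝ) (z : H.Pt) : Prop :=
  edge z = some e₀ ∧ x₀ < co b₀ z ∧ co b₀ z < x₀ + s

theorem edge_at_of_inner {H : MetricGraph} {e : H.E} {b : Bool} {u : ℝ} (h0 : 0 < u)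
    (h1 : u < H.len e) : edge (H.at' e b u) = some e := by
  cases b
  · rw [at_false, pt_inner ⟨by linarith, by linarith⟩]; rfl
  · rw [at_true, pt_inner ⟨h0, h1⟩]; rfl

theorem edge_at {H : MetricGraph} {e e' : H.E} {b : Bool} {u : ℝ}
    (h : edge (H.at' e b u) = some e') : e = e' ∧ 0 < u ∧ u < H.len e := by
  have key : ∀ v, edge (H.pt e v) = some e' → e = e' ∧ 0 < v ∧ v < H.len e := by
    intro v hv
    by_cases h1 : 0 < v ∧ v < H.len e
    · rw [pt_inner h1] at hv
      simp only [edge, Option.some.injEq] at hv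
      exact ⟨hv, h1⟩
    · exfalso
      unfold pt at hv
      rw [dif_neg h1] at hv
      split_ifs at hv <;> simp [edge] at hv
  cases b
  · rw [at_false] at h
    obtain ⟨h1, h2, h3⟩ := key _ h
    exact ⟨h1, by linarith, by linarith⟩
  · rw [at_true] at h
    exact key _ h

theorem seg_at {H : MetricGraph} {e₀ : H.E} {b₀ : Bool} {x₀ s : ℝ} (h0 : 0 ≤ x₀)
    (h1 : x₀ + s < H.len e₀) (u : ℝ) :
    seg e₀ b₀ x₀ s (H.at' e₀ b₀ u) ↔ x₀ < u ∧ u < x₀ + s := by
  constructor
  · rintro ⟨h2, h3, h4⟩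
    obtain ⟨-, h5, h6⟩ := edge_at h2
    rw [co_spec h5.le h6] at h3 h4
    exact ⟨h3, h4⟩
  · rintro ⟨h2, h3⟩
    have h5 : 0 < u := by linarith
    have h6 : u < H.len e₀ := by linarith
    refine ⟨edge_at_of_inner h5 h6, ?_, ?_⟩ <;> rw [co_spec h5.le h6] <;> assumption

theorem not_seg_at {H : MetricGraph} {e₀ e : H.E} {b₀ b : Bool} {x₀ s : ℝ} (he : e ≠ e₀)
    (u : ℝ) : ¬ seg e₀ b₀ x₀ s (H.at' e b u) := by
  rintro ⟨h2, -, -⟩
  exact he (edge_at h2).1

/-- The function interpolating between `0` and `s` along the segment. -/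
noncomputable def slide (f : (G.cover σ).Pt → ℝ) (a₀ : (G.cover σ).Pt) (e₀ : (G.cover σ).E)
    (b₀ : Bool) (x₀ s : ℝ) (z : (G.cover σ).Pt) : ℝ :=
  if seg e₀ b₀ x₀ s z then co b₀ z - x₀
  else if seg e₀ b₀ x₀ s (iota z) then s - (co b₀ z - x₀)
  else if 0 < f z ∨ z = iota a₀ then s else 0

/-- Half of the slopes of `slide`. -/
noncomputable def slideA {H : MetricGraph} (e₀ : H.E) (b₀ : Bool) (x₀ s : ℝ) (e : H.E) (b : Bool)
    (x : ℝ) : ℤ :=
  if e = e₀ then
    (if b = b₀ then (if x₀ ≤ x ∧ x < x₀ + s then 1 else 0)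
    else (if H.len e₀ - x₀ - s ≤ x ∧ x < H.len e₀ - x₀ then -1 else 0))
  else 0

/-- The slopes of `slide`. -/
noncomputable def slideS (e₀ : (G.cover σ).E) (b₀ : Bool) (x₀ s : ℝ) (e : (G.cover σ).E)
    (b : Bool) (x : ℝ) : ℤ :=
  slideA e₀ b₀ x₀ s e b x - slideA e₀ b₀ x₀ s (iE e) b x

theorem not_seg_both {H : MetricGraph} {e₀ : H.E} {b₀ : Bool} {x₀ s : ℝ} {z z' : H.Pt}
    (h : seg e₀ b₀ x₀ s z) (hz : edge z ≠ edge z') : ¬ seg e₀ b₀ x₀ s z' := by
  rintro ⟨h2, -, -⟩
  exact hz (h.1.trans h2.symm)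

theorem edge_iota_ne {e₀ : (G.cover σ).E} {z : (G.cover σ).Pt} (h : edge z = some e₀) :
    edge z ≠ edge (iota z) := by
  cases z with
  | vert v => simp [edge] at h
  | inner e x hx =>
    intro h'
    simp only [edge, iota, Option.some.injEq] at h'
    exact iE_ne e h'.symm

theorem slide_iota {f : (G.cover σ).Pt → ℝ} {S : (G.cover σ).E → Bool → ℝ → ℤ}
    {a₀ : (G.cover σ).Pt} {e₀ : (G.cover σ).E} {b₀ : Bool} {x₀ s : ℝ}
    (c : Cut f S a₀ e₀ b₀ x₀) (z : (G.cover σ).Pt) :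
    slide f a₀ e₀ b₀ x₀ s (iota z) = s - slide f a₀ e₀ b₀ x₀ s z := by
  unfold slide
  rw [iota_iota, co_iota]
  by_cases h1 : seg e₀ b₀ x₀ s z
  · have h2 : ¬ seg e₀ b₀ x₀ s (iota z) := not_seg_both h1 (edge_iota_ne h1.1)
    rw [if_neg h2, if_pos h1, if_pos h1]
  · by_cases h2 : seg e₀ b₀ x₀ s (iota z)
    · rw [if_pos h2, if_neg h1, if_pos h2]
      ring
    · rw [if_neg h2, if_neg h1, if_neg h1, if_neg h2]
      have h3 : (0 < f (iota z) ∨ iota z = iota a₀) ↔ ¬ (0 < f z ∨ z = iota a₀) := by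
        rw [c.anti]
        constructor
        · rintro (h | h) (h' | h')
          · linarith
          · have : f z = 0 := (c.zero z).2 (Or.inr h')
            linarith
          · have h4 : z = a₀ := by
              have := congrArg iota h
              rwa [iota_iota, iota_iota] at this
            have : f z = 0 := (c.zero z).2 (Or.inl h4)
            linarith
          · have h4 : z = a₀ := by
              have := congrArg iota h
              rwa [iota_iota, iota_iota] at this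
            rw [h4] at h'
            exact iota_ne a₀ h'.symm
        · intro h
          rw [not_or, not_lt] at h
          rcases h.1.lt_or_eq with h4 | h4
          · left; linarith
          · right
            rw [((c.zero z).1 h4).resolve_right h.2]
      by_cases h4 : 0 < f z ∨ z = iota a₀
      · rw [if_neg (fun h => h3.1 h h4), if_pos h4]; ring
      · rw [if_pos (h3.2 h4), if_neg h4]; ring

/-- The locally constant part. -/
theorem side_const {f : (G.cover σ).Pt → ℝ} {S : (G.cover σ).E → Bool → ℝ → ℤ}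
    {a₀ : (G.cover σ).Pt} {e₀ : (G.cover σ).E} {b₀ : Bool} {x₀ : ℝ}
    (c : Cut f S a₀ e₀ b₀ x₀) {e : (G.cover σ).E} {b : Bool} {x : ℝ} (h0 : 0 ≤ x)
    (h1 : x < (G.cover σ).len e) (hn : ¬ (e = e₀ ∧ b = b₀ ∧ x = x₀))
    (hn' : ¬ (e = iE e₀ ∧ b = b₀ ∧ x = x₀)) :
    ∃ ε > 0, ∀ t, 0 ≤ t → t < ε →
      ((0 < f ((G.cover σ).at' e b (x + t)) ∨ (G.cover σ).at' e b (x + t) = iota a₀) ↔
        (0 < f ((G.cover σ).at' e b x) ∨ (G.cover σ).at' e b x = iota a₀)) := by
  have hcont := continuous_of_slopes c.slopes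
  have hopP : IsOpen {y | 0 < f y} := isOpen_lt continuous_const hcont
  have hopN : IsOpen {y | f y < 0} := isOpen_lt hcont continuous_const
  have hza : f a₀ = 0 := (c.zero _).2 (Or.inl rfl)
  have hzi : f (iota a₀) = 0 := (c.zero _).2 (Or.inr rfl)
  have hNeg : ∀ y, f y < 0 → ¬ (0 < f y ∨ y = iota a₀) := by
    rintro y hy (h | rfl)
    · linarith
    · linarith
  have hcoa : co b₀ a₀ = x₀ := by rw [← c.start]; exact co_spec c.hx0 c.hx1
  rcases lt_trichotomy (f ((G.cover σ).at' e b x)) 0 with h3 | h3 | h3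
  · obtain ⟨ε, hε, h4⟩ := dir_of_isOpen hopN
      (show (G.cover σ).at' e b x ∈ {y | f y < 0} from h3)
    refine ⟨ε, hε, fun t ht ht' => ?_⟩
    have h5 := hNeg _ (h4 t ht ht')
    have h6 := hNeg _ h3
    exact iff_of_false h5 h6
  · rcases (c.zero _).1 h3 with h4 | h4
    · -- at `a₀`
      have h5 : ¬ (e = e₀ ∧ b = b₀) := by
        rintro ⟨rfl, rfl⟩
        apply hn
        refine ⟨rfl, rfl, ?_⟩
        rw [← hcoa, ← h4]
        exact (co_spec h0 h1).symm
      obtain ⟨ε, hε, h6⟩ := slope_neg_eventually c.slopes h0 h1 h3 (c.neg e b x h0 h1 h4 h5)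
      refine ⟨ε, hε, fun t ht ht' => ?_⟩
      rcases ht.eq_or_lt with h7 | h7
      · rw [← h7, add_zero]
      · refine iff_of_false (hNeg _ (h6 t h7 ht')) ?_
        rw [h3, h4]
        rintro (h | h)
        · exact lt_irrefl _ h
        · exact iota_ne a₀ h.symm
    · -- at `ιa₀`
      have h5 : ¬ (iE e = e₀ ∧ b = b₀) := by
        rintro ⟨rfl, rfl⟩
        apply hn'
        refine ⟨(iE_iE e).symm, rfl, ?_⟩
        rw [← hcoa, ← co_iota, ← h4]
        exact (co_spec h0 h1).symm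
      have h8 : (G.cover σ).at' (iE e) b x = a₀ := by rw [← iota_at, h4, iota_iota]
      have h9 := c.neg (iE e) b x h0 h1 h8 h5
      rw [c.antiS e b x h0 h1] at h9
      obtain ⟨ε, hε, h6⟩ := slope_pos_eventually c.slopes h0 h1 h3 (show 0 < S e b x by omega)
      refine ⟨ε, hε, fun t ht ht' => ?_⟩
      rcases ht.eq_or_lt with h7 | h7
      · rw [← h7, add_zero]
      · exact iff_of_true (Or.inl (h6 t h7 ht')) (Or.inr h4)
  · obtain ⟨ε, hε, h4⟩ := dir_of_isOpen hopP
      (show (G.cover σ).at' e b x ∈ {y | 0 < f y} from h3)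
    refine ⟨ε, hε, fun t ht ht' => ?_⟩
    exact iff_of_true (Or.inl (h4 t ht ht')) (Or.inl h3)

/-- Away from the two segments `slide` is locally constant. -/
theorem slide_const {f : (G.cover σ).Pt → ℝ} {S : (G.cover σ).E → Bool → ℝ → ℤ}
    {a₀ : (G.cover σ).Pt} {e₀ : (G.cover σ).E} {b₀ : Bool} {x₀ s : ℝ}
    (c : Cut f S a₀ e₀ b₀ x₀) {e : (G.cover σ).E} {b : Bool} {x : ℝ} (h0 : 0 ≤ x)
    (h1 : x < (G.cover σ).len e) (hn : ¬ (e = e₀ ∧ b = b₀ ∧ x = x₀))
    (hn' : ¬ (e = iE e₀ ∧ b = b₀ ∧ x = x₀))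
    (hav : ∃ ε > 0, ∀ t, 0 ≤ t → t < ε → ¬ seg e₀ b₀ x₀ s ((G.cover σ).at' e b (x + t)) ∧
      ¬ seg e₀ b₀ x₀ s (iota ((G.cover σ).at' e b (x + t)))) :
    HasSlope (slide f a₀ e₀ b₀ x₀ s) e b x 0 := by
  obtain ⟨ε, hε, h2⟩ := side_const c h0 h1 hn hn'
  obtain ⟨ε', hε', h3⟩ := hav
  refine ⟨min ε ε', lt_min hε hε', fun t ht ht' => ?_⟩
  have h4 := h2 t ht (lt_of_lt_of_le ht' (min_le_left _ _))
  have h5 := h3 t ht (lt_of_lt_of_le ht' (min_le_right _ _))
  have h6 := h3 0 le_rfl hε'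
  rw [add_zero] at h6
  unfold slide
  rw [if_neg h5.1, if_neg h5.2, if_neg h6.1, if_neg h6.2]
  simp only [h4]
  simp

/-- On the closed segment `slide` is the distance to the start. -/
theorem slide_seg {f : (G.cover σ).Pt → ℝ} {S : (G.cover σ).E → Bool → ℝ → ℤ}
    {a₀ : (G.cover σ).Pt} {e₀ : (G.cover σ).E} {b₀ : Bool} {x₀ s : ℝ}
    (c : Cut f S a₀ e₀ b₀ x₀) (hs : 0 < s) (hs1 : x₀ + s < (G.cover σ).len e₀)
    (hpos : 0 < f ((G.cover σ).at' e₀ b₀ (x₀ + s))) {u : ℝ} (hu : x₀ ≤ u) (hu' : u ≤ x₀ + s) :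
    slide f a₀ e₀ b₀ x₀ s ((G.cover σ).at' e₀ b₀ u) = u - x₀ := by
  have hx0 := c.hx0
  have hι : ∀ v, ¬ seg e₀ b₀ x₀ s (iota ((G.cover σ).at' e₀ b₀ v)) := by
    intro v
    rw [iota_at]
    exact not_seg_at (iE_ne e₀) v
  unfold slide
  rcases hu.eq_or_lt with h1 | h1
  · rw [if_neg (by rw [seg_at hx0 hs1]; intro h; linarith [h.1]), if_neg (hι u), ← h1, c.start,
      if_neg]
    · ring
    · rintro (h | h)
      · rw [(c.zero a₀).2 (Or.inl rfl)] at h
        exact lt_irrefl _ h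
      · exact iota_ne a₀ h.symm
  · rcases hu'.lt_or_eq with h2 | h2
    · rw [if_pos ((seg_at hx0 hs1 u).2 ⟨h1, h2⟩), co_spec (by linarith) (by linarith)]
    · rw [if_neg (by rw [seg_at hx0 hs1]; intro h; linarith [h.2]), if_neg (hι u), h2,
        if_pos (Or.inl hpos)]
      ring

theorem not_eq_iff_bool {b b₀ : Bool} (h : b ≠ b₀) : b = !b₀ := by
  cases b <;> cases b₀ <;> simp_all

theorem slide_slopes {f : (G.cover σ).Pt → ℝ} {S : (G.cover σ).E → Bool → ℝ → ℤ}
    {a₀ : (G.cover σ).Pt} {e₀ : (G.cover σ).E} {b₀ : Bool} {x₀ s : ℝ}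
    (c : Cut f S a₀ e₀ b₀ x₀) (hs : 0 < s) (hs1 : x₀ + s < (G.cover σ).len e₀)
    (hpos : 0 < f ((G.cover σ).at' e₀ b₀ (x₀ + s))) :
    Slopes (slide f a₀ e₀ b₀ x₀ s) (slideS e₀ b₀ x₀ s) := by
  have hx0 := c.hx0
  -- the directions on `e₀` and on the edges different from `e₀`, `ιe₀`
  have key : ∀ e b x, 0 ≤ x → x < (G.cover σ).len e → e ≠ iE e₀ →
      HasSlope (slide f a₀ e₀ b₀ x₀ s) e b x (slideS e₀ b₀ x₀ s e b x) := by
    intro e b x h0 h1 he
    have he' : iE e ≠ e₀ := fun h => he (by rw [← h, iE_iE])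
    have hS : slideS e₀ b₀ x₀ s e b x = slideA e₀ b₀ x₀ s e b x := by
      unfold slideS
      conv_lhs => rw [show slideA e₀ b₀ x₀ s (iE e) b x = 0 from by
        unfold slideA; rw [if_neg he']]
      rw [sub_zero]
    rw [hS]
    have hι : ∀ v, ¬ seg e₀ b₀ x₀ s (iota ((G.cover σ).at' e b v)) := by
      intro v
      rw [iota_at]
      exact not_seg_at he' v
    by_cases hee : e = e₀
    · subst hee
      unfold slideA
      rw [if_pos rfl]
      by_cases hb : b = b₀
      · subst hb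
        rw [if_pos rfl]
        by_cases hx : x₀ ≤ x ∧ x < x₀ + s
        · rw [if_pos hx]
          refine ⟨x₀ + s - x, by linarith [hx.2], fun t ht ht' => ?_⟩
          rw [slide_seg c hs hs1 hpos (by linarith [hx.1]) (by linarith),
            slide_seg c hs hs1 hpos hx.1 hx.2.le]
          push_cast
          ring
        · rw [if_neg hx]
          refine slide_const c h0 h1 ?_ (fun h => he h.1) ?_
          · rintro ⟨-, -, h⟩
            exact hx ⟨h.symm.le, by linarith⟩
          · rcases lt_or_ge x x₀ with h3 | h3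
            · refine ⟨x₀ - x, by linarith, fun t ht ht' => ⟨?_, hι _⟩⟩
              rw [seg_at hx0 hs1]
              intro h
              linarith [h.1]
            · have h4 : x₀ + s ≤ x := by
                by_contra h5
                push Not at h5
                exact hx ⟨h3, h5⟩
              refine ⟨1, one_pos, fun t ht ht' => ⟨?_, hι _⟩⟩
              rw [seg_at hx0 hs1]
              intro h
              linarith [h.2]
      · rw [if_neg hb]
        have hb' := not_eq_iff_bool hb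
        subst hb'
        by_cases hx : (G.cover σ).len e - x₀ - s ≤ x ∧ x < (G.cover σ).len e - x₀
        · rw [if_pos hx]
          refine ⟨(G.cover σ).len e - x₀ - x, by linarith [hx.2], fun t ht ht' => ?_⟩
          rw [at_not, at_not, slide_seg c hs hs1 hpos (by linarith) (by linarith [hx.1]),
            slide_seg c hs hs1 hpos (by linarith [hx.2]) (by linarith [hx.1])]
          push_cast
          ring
        · rw [if_neg hx]
          refine slide_const c h0 h1 (fun h => hb h.2.1) (fun h => he h.1) ?_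
          rcases lt_or_ge x ((G.cover σ).len e - x₀ - s) with h3 | h3
          · refine ⟨(G.cover σ).len e - x₀ - s - x, by linarith, fun t ht ht' => ⟨?_, hι _⟩⟩
            rw [at_not, seg_at hx0 hs1]
            intro h
            linarith [h.2]
          · have h4 : (G.cover σ).len e - x₀ ≤ x := by
              by_contra h5
              push Not at h5
              exact hx ⟨h3, h5⟩
            refine ⟨1, one_pos, fun t ht ht' => ⟨?_, hι _⟩⟩
            rw [at_not, seg_at hx0 hs1]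
            intro h
            linarith [h.1]
    · unfold slideA
      rw [if_neg hee]
      exact slide_const c h0 h1 (fun h => hee h.1) (fun h => he h.1)
        ⟨1, one_pos, fun t _ _ => ⟨not_seg_at hee _, hι _⟩⟩
  intro e b x h0 h1
  by_cases he : e = iE e₀
  · have h2 := key (iE e) b x h0 h1 (by
      rw [he, iE_iE]
      exact (iE_ne e₀).symm)
    obtain ⟨ε, hε, h3⟩ := h2
    refine ⟨ε, hε, fun t ht ht' => ?_⟩
    have h4 := h3 t ht ht'
    rw [← iota_at, ← iota_at, slide_iota c, slide_iota c] at h4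
    have h5 : slideS e₀ b₀ x₀ s (iE e) b x = - slideS e₀ b₀ x₀ s e b x := by
      unfold slideS
      rw [iE_iE]
      ring
    rw [h5] at h4
    push_cast at h4
    linarith
  · exact key e b x h0 h1 he

theorem slopeSum_slideA {H : MetricGraph} {e₀ : H.E} {b₀ : Bool} {x₀ s : ℝ} (hx0 : 0 ≤ x₀)
    (hs : 0 < s) (hs1 : x₀ + s < H.len e₀) (y : H.Pt) :
    slopeSum (slideA e₀ b₀ x₀ s) y = (if y = H.at' e₀ b₀ x₀ then 1 else 0) -
      (if y = H.at' e₀ b₀ (x₀ + s) then 1 else 0) := by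
  have h1 : slopeSum (slideA e₀ b₀ x₀ s) y =
      (if H.at' e₀ b₀ (co b₀ y) = y then slideA e₀ b₀ x₀ s e₀ b₀ (co b₀ y) else 0) +
      (if H.at' e₀ (!b₀) (co (!b₀) y) = y then slideA e₀ b₀ x₀ s e₀ (!b₀) (co (!b₀) y)
        else 0) := by
    rw [slopeSum_eq, Finset.sum_eq_single e₀]
    · cases b₀
      · rw [Fintype.sum_bool, add_comm]; rfl
      · rw [Fintype.sum_bool]; rfl
    · intro e _ he
      refine Finset.sum_eq_zero fun b _ => ?_
      unfold slideA
      rw [if_neg he, ite_self]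
    · intro h
      exact absurd (Finset.mem_univ _) h
  have h2 : slideA e₀ b₀ x₀ s e₀ b₀ (co b₀ y) =
      if x₀ ≤ co b₀ y ∧ co b₀ y < x₀ + s then 1 else 0 := by
    unfold slideA; rw [if_pos rfl, if_pos rfl]
  have h3 : slideA e₀ b₀ x₀ s e₀ (!b₀) (co (!b₀) y) =
      if H.len e₀ - x₀ - s ≤ co (!b₀) y ∧ co (!b₀) y < H.len e₀ - x₀ then -1 else 0 := by
    unfold slideA
    rw [if_pos rfl, if_neg (by cases b₀ <;> simp)]
  rw [h1, h2, h3]
  cases y with
  | vert v =>
    have hc1 : co b₀ (Pt.vert v : H.Pt) = 0 := rfl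
    have hc2 : co (!b₀) (Pt.vert v : H.Pt) = 0 := rfl
    rw [hc1, hc2]
    have h4 : ¬ (H.len e₀ - x₀ - s ≤ 0 ∧ (0 : ℝ) < H.len e₀ - x₀) := by
      intro h; linarith [h.1]
    rw [if_neg h4, ite_self, add_zero]
    have h5 : (Pt.vert v : H.Pt) ≠ H.at' e₀ b₀ (x₀ + s) := by
      intro h
      have h6 := edge_at_of_inner (H := H) (e := e₀) (b := b₀) (u := x₀ + s) (by linarith) hs1
      rw [← h] at h6
      simp [edge] at h6
    rw [if_neg h5, sub_zero]
    by_cases h6 : x₀ = 0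
    · subst h6
      by_cases h7 : H.at' e₀ b₀ 0 = Pt.vert v
      · rw [if_pos h7, if_pos h7.symm, if_pos ⟨le_rfl, by linarith⟩]
      · rw [if_neg h7, if_neg (fun h => h7 h.symm)]
    · have h7 : 0 < x₀ := lt_of_le_of_ne hx0 (fun h => h6 h.symm)
      have h8 : (Pt.vert v : H.Pt) ≠ H.at' e₀ b₀ x₀ := by
        intro h
        have h9 := edge_at_of_inner (H := H) (e := e₀) (b := b₀) (u := x₀) h7 (by linarith)
        rw [← h] at h9
        simp [edge] at h9
      rw [if_neg h8, if_neg (show ¬ (x₀ ≤ 0 ∧ (0 : ℝ) < x₀ + s) from fun h => by linarith [h.1]),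
        ite_self]
  | inner e x hx =>
    by_cases he : e₀ = e
    · subst he
      have h4 : H.at' e₀ b₀ (co b₀ (Pt.inner e₀ x hx)) = Pt.inner e₀ x hx :=
        (at_co_inner e₀ b₀ e₀ x hx).2 rfl
      have h5 : H.at' e₀ (!b₀) (co (!b₀) (Pt.inner e₀ x hx)) = Pt.inner e₀ x hx :=
        (at_co_inner e₀ (!b₀) e₀ x hx).2 rfl
      rw [if_pos h4, if_pos h5]
      have h6 : co (!b₀) (Pt.inner e₀ x hx : H.Pt) = H.len e₀ - co b₀ (Pt.inner e₀ x hx) := by
        cases b₀ <;> simp [co]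
      have h7 := co_range h4
      rw [h6]
      set u := co b₀ (Pt.inner e₀ x hx : H.Pt) with hu
      have h8 : ∀ w, 0 ≤ w → w < H.len e₀ → ((Pt.inner e₀ x hx : H.Pt) = H.at' e₀ b₀ w ↔ u = w) := by
        intro w hw hw'
        constructor
        · intro h
          rw [hu, h]
          exact co_spec hw hw'
        · intro h
          rw [← h]
          exact h4.symm
      simp only [h8 x₀ hx0 (by linarith), h8 (x₀ + s) (by linarith) hs1]
      rcases lt_trichotomy u x₀ with h9 | h9 | h9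
      · rw [if_neg (fun h => by linarith [h.1]), if_neg (fun h => by linarith [h.2]),
          if_neg h9.ne, if_neg (by intro h; linarith)]
        rfl
      · rw [if_pos ⟨h9.symm.le, by linarith⟩, if_neg (fun h => by linarith [h.2]), if_pos h9,
          if_neg (by intro h; linarith)]
        rfl
      · rcases lt_trichotomy u (x₀ + s) with h10 | h10 | h10
        · rw [if_pos ⟨h9.le, h10⟩, if_pos ⟨by linarith, by linarith⟩, if_neg h9.ne',
            if_neg h10.ne]
          rfl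
        · rw [if_neg (fun h => by linarith [h.2]), if_pos ⟨by linarith, by linarith⟩,
            if_neg h9.ne', if_pos h10]
          rfl
        · rw [if_neg (fun h => by linarith [h.2]), if_neg (fun h => by linarith [h.1]),
            if_neg h9.ne', if_neg h10.ne']
          rfl
    · have h4 : ∀ b, ¬ (H.at' e₀ b (co b (Pt.inner e x hx)) = Pt.inner e x hx) := fun b h =>
        he ((at_co_inner e₀ b e x hx).1 h)
      rw [if_neg (h4 b₀), if_neg (h4 (!b₀))]
      have h5 : ∀ w, (Pt.inner e x hx : H.Pt) ≠ H.at' e₀ b₀ w := by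
        intro w h
        have h6 : edge (H.at' e₀ b₀ w) = some e := by rw [← h]; rfl
        exact he (edge_at h6).1
      rw [if_neg (h5 _), if_neg (h5 _)]
      rfl

theorem samePrym_slide {f : (G.cover σ).Pt → ℝ} {S : (G.cover σ).E → Bool → ℝ → ℤ}
    {a₀ : (G.cover σ).Pt} {e₀ : (G.cover σ).E} {b₀ : Bool} {x₀ s : ℝ}
    (c : Cut f S a₀ e₀ b₀ x₀) (hs : 0 < s) (hs1 : x₀ + s < (G.cover σ).len e₀)
    (hpos : 0 < f ((G.cover σ).at' e₀ b₀ (x₀ + s))) :
    SamePrym a₀ ((G.cover σ).at' e₀ b₀ (x₀ + s)) := by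
  refine ⟨slide f a₀ e₀ b₀ x₀ s, slideS e₀ b₀ x₀ s, slide_slopes c hs hs1 hpos, fun y => ?_⟩
  have h1 : slopeSum (slideS e₀ b₀ x₀ s) y =
      slopeSum (slideA e₀ b₀ x₀ s) y - slopeSum (slideA e₀ b₀ x₀ s) (iota y) := by
    rw [← slopeSum_iota, ← slopeSum_sub]
    rfl
  rw [h1, slopeSum_slideA c.hx0 hs hs1, slopeSum_slideA c.hx0 hs hs1, c.start]
  have e1 : ∀ w : (G.cover σ).Pt, (iota y = w) ↔ (y = iota w) := fun w =>
    ⟨fun h => by rw [← h, iota_iota], fun h => by rw [h, iota_iota]⟩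
  simp only [e1]
  unfold prym
  ring

/-- The main theorem. -/
theorem main [PreconnectedSpace (G.cover σ).Pt]
    (h2 : ∀ x : G.Pt, IsPreconnected ({x}ᶜ : Set G.Pt))
    (hfin : ∀ p : (G.cover σ).Pt, {q | SamePrym p q}.Finite)
    (p q : (G.cover σ).Pt) (h : SamePrym p q) : p = q := by
  by_contra hpq
  obtain ⟨f, S, a₀, e₀, b₀, x₀, c⟩ := exists_cut h2 hpq h
  obtain ⟨ε, hε, h3⟩ := slope_pos_eventually c.slopes c.hx0 c.hx1
    (by rw [c.start]; exact (c.zero _).2 (Or.inl rfl)) (by rw [c.one]; exact one_pos)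
  have hx0 := c.hx0
  have hx1 := c.hx1
  set δ := min ε ((G.cover σ).len e₀ - x₀) with hδ
  have hδ0 : 0 < δ := lt_min hε (by linarith)
  have hinj : Set.InjOn (fun s => (G.cover σ).at' e₀ b₀ (x₀ + s)) (Set.Ioo 0 δ) := by
    intro s hs t ht hst
    have hst' : (G.cover σ).at' e₀ b₀ (x₀ + s) = (G.cover σ).at' e₀ b₀ (x₀ + t) := hst
    have hd := min_le_right ε ((G.cover σ).len e₀ - x₀)
    have h4 := co_spec (G := G.cover σ) (e := e₀) (b := b₀) (x := x₀ + s)
      (by linarith [hs.1]) (by linarith [hs.2])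
    have h5 := co_spec (G := G.cover σ) (e := e₀) (b := b₀) (x := x₀ + t)
      (by linarith [ht.1]) (by linarith [ht.2])
    rw [hst', h5] at h4
    linarith
  have hsub : (fun s => (G.cover σ).at' e₀ b₀ (x₀ + s)) '' Set.Ioo 0 δ ⊆ {q | SamePrym a₀ q} := by
    rintro _ ⟨s, hs, rfl⟩
    have hd := min_le_right ε ((G.cover σ).len e₀ - x₀)
    have hd' := min_le_left ε ((G.cover σ).len e₀ - x₀)
    exact samePrym_slide c hs.1 (by linarith [hs.2]) (h3 s hs.1 (by linarith [hs.2]))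
  have hinf : (Set.Ioo (0 : ℝ) δ).Infinite := Set.Ioo_infinite hδ0
  exact (hinf.image hinj) ((hfin a₀).subset hsub)

end MetricGraph

end Pool.Agent.V1140.AP
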