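import Pool.Agent.V1140.AP.Basic

/-!
# The Stokes inequality and harmonic functions on metric graphs
-/

set_option autoImplicit false

namespace Pool.Agent.V1140.AP

open Classical Topology

theorem left_of_right {h : ℝ → ℝ} {c ε s : ℝ} {m l : ℤ}
    (hr : ∀ t, 0 ≤ t → t < ε → h (c + t) = h c + m * t) (hs : 0 < s) (hsε : s < ε)
    (hl : ∃ δ > 0, ∀ t, 0 ≤ t → t < δ → h (c + s - t) = h (c + s) + l * t) : l = -m := by
  obtain ⟨δ, hδ, hl⟩ := hl
  have ht : 0 < min δ s / 2 := by positivity
  have h1 := hl (min δ s / 2) ht.le (by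
    have := min_le_left δ s
    linarith [half_lt_self (lt_min hδ hs)])
  have hts : min δ s / 2 < s := by
    have := min_le_right δ s
    linarith [half_lt_self (lt_min hδ hs)]
  have h2 := hr (s - min δ s / 2) (by linarith) (by linarith)
  have h3 := hr s hs.le hsε
  rw [show c + s - min δ s / 2 = c + (s - min δ s / 2) by ring, h2, h3] at h1
  have h4 : ((l : ℝ) + m) * (min δ s / 2) = 0 := by linarith
  rcases mul_eq_zero.1 h4 with h5 | h5
  · have h6 : (l : ℝ) = ((-m : ℤ) : ℝ) := by push_cast; linarith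
    exact_mod_cast h6
  · exact absurd h5 ht.ne'

theorem left_of_left {h : ℝ → ℝ} {c ε s : ℝ} {m l : ℤ}
    (hr : ∀ t, 0 ≤ t → t < ε → h (c - t) = h c + m * t) (hs : 0 < s) (hsε : s < ε)
    (hl : ∃ δ > 0, ∀ t, 0 ≤ t → t < δ → h (c - s - t) = h (c - s) + l * t) : l = m := by
  obtain ⟨δ, hδ, hl⟩ := hl
  have hes : 0 < ε - s := by linarith
  have ht : 0 < min δ (ε - s) / 2 := by positivity
  have h1 := hl (min δ (ε - s) / 2) ht.le (by
    have := min_le_left δ (ε - s)
    linarith [half_lt_self (lt_min hδ hes)])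
  have hts : min δ (ε - s) / 2 < ε - s := by
    have := min_le_right δ (ε - s)
    linarith [half_lt_self (lt_min hδ hes)]
  have h2 := hr (s + min δ (ε - s) / 2) (by linarith) (by linarith)
  have h3 := hr s hs.le hsε
  rw [show c - s - min δ (ε - s) / 2 = c - (s + min δ (ε - s) / 2) by ring, h2, h3] at h1
  have h4 : ((m : ℝ) - l) * (min δ (ε - s) / 2) = 0 := by linarith
  rcases mul_eq_zero.1 h4 with h5 | h5
  · have h6 : (l : ℝ) = (m : ℝ) := by linarith
    exact_mod_cast h6
  · exact absurd h5 ht.ne'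

theorem gap (T : Finset ℝ) (c : ℝ) : ∃ δ > 0, ∀ x ∈ T, x ≠ c → δ ≤ |x - c| := by
  have h1 : IsClosed ((T.erase c : Finset ℝ) : Set ℝ) := (T.erase c).finite_toSet.isClosed
  have h2 : c ∈ ((T.erase c : Finset ℝ) : Set ℝ)ᶜ := by simp
  obtain ⟨δ, hδ, h⟩ := Metric.isOpen_iff.1 h1.isOpen_compl c h2
  refine ⟨δ, hδ, fun x hx hxc => ?_⟩
  by_contra hlt
  push Not at hlt
  have := h (show x ∈ Metric.ball c δ by rw [Metric.mem_ball, Real.dist_eq]; exact hlt)
  exact this (by simp [hx, hxc])

theorem oneD {ℓ : ℝ} (hℓ : 0 < ℓ) (h : ℝ → ℝ) (R L : ℝ → ℤ) (T : Finset ℝ)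
    (hR : ∀ x, 0 ≤ x → x < ℓ → ∃ ε > 0, ∀ t, 0 ≤ t → t < ε → h (x + t) = h x + R x * t)
    (hL : ∀ x, 0 < x → x ≤ ℓ → ∃ ε > 0, ∀ t, 0 ≤ t → t < ε → h (x - t) = h x + L x * t)
    (hconv : ∀ x, 0 < x → x < ℓ → x ∉ T → 0 ≤ R x + L x)
    (hT : ∀ x ∈ T, 0 < x ∧ x < ℓ) :
    R 0 + L ℓ + ∑ x ∈ T, (R x + L x) ≤ 0 := by
  set φ : ℝ → ℤ := fun u => R 0 + L u + ∑ x ∈ T.filter (· < u), (R x + L x) with hφ
  suffices hmain : ∀ u, 0 < u → u ≤ ℓ → φ u ≤ 0 by
    have h1 := hmain ℓ hℓ le_rfl
    have h2 : T.filter (· < ℓ) = T := Finset.filter_true_of_mem fun x hx => (hT x hx).2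
    simp only [hφ, h2] at h1
    exact h1
  by_contra hcon
  push Not at hcon
  obtain ⟨u₀, hu₀, hu₀ℓ, hbad⟩ := hcon
  set Bad : Set ℝ := {u | 0 < u ∧ u ≤ ℓ ∧ 0 < φ u} with hBad
  have hne : Bad.Nonempty := ⟨u₀, hu₀, hu₀ℓ, hbad⟩
  have hbdd : BddBelow Bad := ⟨0, fun u hu => hu.1.le⟩
  set c := sInf Bad with hc
  -- near `0`
  have hcpos : 0 < c := by
    obtain ⟨ε, hε, h1⟩ := hR 0 le_rfl hℓ
    obtain ⟨δ, hδ, h2⟩ := gap T 0
    have h3 : ∀ u ∈ Bad, min ε δ ≤ u := by
      intro u hu
      by_contra hlt
      push Not at hlt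
      have hlt1 : u < ε := lt_of_lt_of_le hlt (min_le_left _ _)
      have hlt2 : u < δ := lt_of_lt_of_le hlt (min_le_right _ _)
      have h4 : L u = - R 0 := by
        refine left_of_right (c := 0) h1 hu.1 hlt1 ?_
        rw [zero_add]
        exact hL u hu.1 hu.2.1
      have h5 : T.filter (· < u) = ∅ := by
        rw [Finset.filter_eq_empty_iff]
        intro x hx hxu
        have h6 := h2 x hx (hT x hx).1.ne'
        rw [sub_zero, abs_of_pos (hT x hx).1] at h6
        linarith
      have h6 : φ u = 0 := by simp only [hφ, h5, h4]; simp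
      have := hu.2.2
      omega
    exact lt_of_lt_of_le (lt_min hε hδ) (le_csInf hne h3)
  have hcℓ : c ≤ ℓ := (csInf_le hbdd ⟨hu₀, hu₀ℓ, hbad⟩).trans hu₀ℓ
  have hbelow : ∀ u, 0 < u → u < c → φ u ≤ 0 := by
    intro u hu huc
    by_contra h1
    push Not at h1
    exact absurd (csInf_le hbdd (show u ∈ Bad from ⟨hu, by linarith, h1⟩)) (not_le.2 huc)
  obtain ⟨δ, hδ, hgap⟩ := gap T c
  -- at `c`
  have hφc : φ c ≤ 0 := by
    obtain ⟨ε, hε, h1⟩ := hL c hcpos hcℓ
    set s := min (min ε δ) c / 2 with hs
    have hmin : 0 < min (min ε δ) c := lt_min (lt_min hε hδ) hcpos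
    have hs0 : 0 < s := by positivity
    have hsm : s < min (min ε δ) c := half_lt_self hmin
    have hsε : s < ε := lt_of_lt_of_le hsm ((min_le_left _ _).trans (min_le_left _ _))
    have hsδ : s < δ := lt_of_lt_of_le hsm ((min_le_left _ _).trans (min_le_right _ _))
    have hsc : s < c := lt_of_lt_of_le hsm (min_le_right _ _)
    have h2 : L (c - s) = L c :=
      left_of_left h1 hs0 hsε (hL (c - s) (by linarith) (by linarith))
    have h3 : T.filter (· < c - s) = T.filter (· < c) := by
      ext x
      simp only [Finset.mem_filter]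
      constructor
      · rintro ⟨hx, h4⟩; exact ⟨hx, by linarith⟩
      · rintro ⟨hx, h4⟩
        refine ⟨hx, ?_⟩
        have h5 := hgap x hx h4.ne
        rw [abs_of_neg (by linarith)] at h5
        linarith
    have h4 := hbelow (c - s) (by linarith) (by linarith)
    simp only [hφ, h2, h3] at h4 ⊢
    exact h4
  -- to the right of `c`
  have hcltℓ : c < ℓ := by
    rcases hcℓ.lt_or_eq with h1 | h1
    · exact h1
    · exfalso
      have : ∀ u ∈ Bad, False := by
        intro u hu
        have h2 : c ≤ u := csInf_le hbdd hu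
        have h3 : u = c := le_antisymm (hu.2.1.trans h1.symm.le) h2
        rw [h3] at hu
        have := hu.2.2
        omega
      exact this u₀ ⟨hu₀, hu₀ℓ, hbad⟩
  obtain ⟨ε, hε, h1⟩ := hR c hcpos.le hcltℓ
  obtain ⟨u, hu, huc⟩ : ∃ u ∈ Bad, u < c + min ε δ := by
    by_contra hcon
    push Not at hcon
    have : c + min ε δ ≤ c := le_csInf hne hcon
    have := lt_min hε hδ
    linarith
  have hcu : c < u := by
    rcases (csInf_le hbdd hu).lt_or_eq with h2 | h2
    · exact h2
    · exfalso
      have h3 : c = u := h2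
      rw [← h3] at hu
      have := hu.2.2
      omega
  have huε : u - c < ε := by have := min_le_left ε δ; linarith
  have huδ : u - c < δ := by have := min_le_right ε δ; linarith
  have h2 : L u = - R c := by
    have := left_of_right (c := c) (s := u - c) (l := L u) h1 (by linarith) huε (by
      rw [show c + (u - c) = u by ring]
      exact hL u hu.1 hu.2.1)
    exact this
  have h3 : φ u ≤ φ c := by
    by_cases hcT : c ∈ T
    · have h4 : T.filter (· < u) = insert c (T.filter (· < c)) := by
        ext x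
        simp only [Finset.mem_filter, Finset.mem_insert]
        constructor
        · rintro ⟨hx, h5⟩
          by_cases hxc : x = c
          · exact Or.inl hxc
          · refine Or.inr ⟨hx, ?_⟩
            by_contra h6
            push Not at h6
            have h7 := hgap x hx hxc
            rw [abs_of_nonneg (by linarith)] at h7
            linarith
        · rintro (h5 | ⟨hx, h5⟩)
          · rw [h5]; exact ⟨hcT, hcu⟩
          · exact ⟨hx, by linarith⟩
      simp only [hφ, h4]
      rw [Finset.sum_insert (by simp), h2]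
      omega
    · have h4 : T.filter (· < u) = T.filter (· < c) := by
        ext x
        simp only [Finset.mem_filter]
        constructor
        · rintro ⟨hx, h5⟩
          refine ⟨hx, ?_⟩
          have hxc : x ≠ c := fun e => hcT (e ▸ hx)
          by_contra h6
          push Not at h6
          have h7 := hgap x hx hxc
          rw [abs_of_nonneg (by linarith)] at h7
          linarith
        · rintro ⟨hx, h5⟩
          exact ⟨hx, by linarith⟩
      have h5 := hconv c hcpos hcltℓ hcT
      simp only [hφ, h4, h2]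
      omega
  have := hu.2.2
  omega

namespace MetricGraph

variable {G : MetricGraph}

/-- The Stokes inequality: if the outgoing slope sums are non-negative outside a finite set `W`
containing the vertices, then their sum over `W` is at most zero. -/
theorem stokes_le {f : G.Pt → ℝ} {S : G.E → Bool → ℝ → ℤ} (hS : Slopes f S)
    (W : Finset G.Pt) (hV : ∀ v, Pt.vert v ∈ W) (hpos : ∀ y, y ∉ W → 0 ≤ slopeSum S y) :
    ∑ y ∈ W, slopeSum S y ≤ 0 := by
  have h1 : ∑ y ∈ W, slopeSum S y =
      ∑ o : Option G.E, ∑ y ∈ W with edge y = o, slopeSum S y :=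
    (Finset.sum_fiberwise W edge (slopeSum S)).symm
  rw [h1, Fintype.sum_option]
  -- vertices
  have h2 : ∑ y ∈ W with edge y = none, slopeSum S y = ∑ e, (S e true 0 + S e false 0) := by
    have h3 : W.filter (fun y => edge y = none) = Finset.univ.image Pt.vert := by
      ext y
      simp only [Finset.mem_filter, Finset.mem_image, Finset.mem_univ, true_and]
      constructor
      · rintro ⟨-, hy⟩
        cases y with
        | vert v => exact ⟨v, rfl⟩
        | inner e x h => simp [edge] at hy
      · rintro ⟨v, rfl⟩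
        exact ⟨hV v, rfl⟩
    rw [h3, Finset.sum_image (by
      intro v _ w _ hvw
      simpa using hvw)]
    simp only [slopeSum]
    rw [Finset.sum_comm]
    refine Finset.sum_congr rfl fun e _ => ?_
    rw [Finset.sum_add_distrib, Finset.sum_ite_eq, Finset.sum_ite_eq]
    simp
  rw [h2, ← Finset.sum_add_distrib]
  refine Finset.sum_nonpos fun e _ => ?_
  have hcoord : ∀ y, edge y = some e → ∃ hx : 0 < co true y ∧ co true y < G.len e,
      y = Pt.inner e (co true y) hx := by
    intro y hy
    cases y with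
    | vert v => simp [edge] at hy
    | inner e' x h =>
      simp only [edge, Option.some.injEq] at hy
      subst hy
      exact ⟨h, rfl⟩
  have h3 : ∑ y ∈ W with edge y = some e, slopeSum S y =
      ∑ x ∈ (W.filter (fun y => edge y = some e)).image (co true),
        (S e true x + S e false (G.len e - x)) := by
    rw [Finset.sum_image]
    · refine Finset.sum_congr rfl fun y hy => ?_
      rw [Finset.mem_filter] at hy
      obtain ⟨hx, hy'⟩ := hcoord y hy.2
      rw [hy']
      simp [slopeSum, co]
    · intro y hy z hz hyz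
      simp only [Finset.coe_filter, Set.mem_ofPred_eq] at hy hz
      obtain ⟨hx, hy'⟩ := hcoord y hy.2
      obtain ⟨hx', hz'⟩ := hcoord z hz.2
      rw [hy', hz']
      simp only [Pt.inner.injEq, heq_eq_eq, true_and]
      exact hyz
  rw [h3]
  have key := oneD (G.len_pos e) (fun x => f (G.pt e x)) (fun x => S e true x)
    (fun x => S e false (G.len e - x))
    ((W.filter (fun y => edge y = some e)).image (co true)) ?_ ?_ ?_ ?_
  · simp only [sub_self] at key
    exact key
  · intro x h0 h1
    exact hS e true x h0 h1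
  · intro x h0 h1
    obtain ⟨ε, hε, h⟩ := hS e false (G.len e - x) (by linarith) (by linarith)
    refine ⟨ε, hε, fun t ht ht' => ?_⟩
    have h4 := h t ht ht'
    rw [at_false, at_false, sub_sub_cancel,
      show G.len e - (G.len e - x + t) = x - t by ring] at h4
    exact h4
  · intro x h0 h1 hx
    have h4 : Pt.inner e x ⟨h0, h1⟩ ∉ W := by
      intro hW
      apply hx
      rw [Finset.mem_image]
      exact ⟨Pt.inner e x ⟨h0, h1⟩, by simp [hW, edge], by simp [co]⟩
    have h5 := hpos _ h4
    simpa [slopeSum] using h5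
  · intro x hx
    rw [Finset.mem_image] at hx
    obtain ⟨y, hy, rfl⟩ := hx
    rw [Finset.mem_filter] at hy
    obtain ⟨h, -⟩ := hcoord y hy.2
    exact h

/-- A function with slopes is continuous. -/
theorem continuous_of_slopes {f : G.Pt → ℝ} {S : G.E → Bool → ℝ → ℤ} (hS : Slopes f S) :
    Continuous f := by
  rw [continuous_def]
  intro U hU
  apply isOpen_of_dir
  intro e b x h0 h1 hx
  obtain ⟨ε, hε, h⟩ := hS e b x h0 h1
  have hcont : Continuous (fun t : ℝ => f (G.at' e b x) + (S e b x : ℝ) * t) := by fun_prop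
  have hmem : (0 : ℝ) ∈ (fun t : ℝ => f (G.at' e b x) + (S e b x : ℝ) * t) ⁻¹' U := by
    simpa using hx
  obtain ⟨δ, hδ, h2⟩ := Metric.isOpen_iff.1 (hcont.isOpen_preimage U hU) 0 hmem
  refine ⟨min ε δ, lt_min hε hδ, fun t ht ht' => ?_⟩
  have h3 := h t ht (lt_of_lt_of_le ht' (min_le_left _ _))
  show f (G.at' e b (x + t)) ∈ U
  rw [h3]
  apply h2
  rw [Metric.mem_ball, Real.dist_eq, sub_zero, abs_of_nonneg ht]
  exact lt_of_lt_of_le ht' (min_le_right _ _)

/-- If no outgoing slope at `y` is positive and they sum to something non-negative then all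
vanish. -/
theorem slope_zero {S : G.E → Bool → ℝ → ℤ} {y : G.Pt}
    (hle : ∀ e b x, 0 ≤ x → x < G.len e → G.at' e b x = y → S e b x ≤ 0)
    (hsum : 0 ≤ slopeSum S y) :
    ∀ e b x, 0 ≤ x → x < G.len e → G.at' e b x = y → S e b x = 0 := by
  intro e b x h0 h1 hxy
  rw [slopeSum_eq] at hsum
  have hterm : ∀ e b, (if G.at' e b (co b y) = y then S e b (co b y) else 0) ≤ 0 := by
    intro e b
    split_ifs with h
    · exact hle e b _ (co_range h).1 (co_range h).2 h
    · exact le_rfl
  have hx : co b y = x := by rw [← hxy]; exact co_spec h0 h1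
  have h2 : (if G.at' e b (co b y) = y then S e b (co b y) else 0) = 0 := by
    have h3 : ∑ e, ∑ b : Bool, (if G.at' e b (co b y) = y then S e b (co b y) else 0) = 0 :=
      le_antisymm (Finset.sum_nonpos fun e _ => Finset.sum_nonpos fun b _ => hterm e b) hsum
    have h4 := (Finset.sum_eq_zero_iff_of_nonpos
      (fun e _ => Finset.sum_nonpos fun b _ => hterm e b)).1 h3 e (Finset.mem_univ _)
    exact (Finset.sum_eq_zero_iff_of_nonpos (fun b _ => hterm e b)).1 h4 b (Finset.mem_univ _)
  rw [hx, if_pos hxy] at h2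
  exact h2

/-- Harmonic functions on a connected metric graph are constant. -/
theorem harmonic_const [PreconnectedSpace G.Pt] {f : G.Pt → ℝ} {S : G.E → Bool → ℝ → ℤ}
    (hS : Slopes f S) (h0 : ∀ y, slopeSum S y = 0) (x y : G.Pt) : f x = f y := by
  have hcont := continuous_of_slopes hS
  obtain ⟨z, -, hz⟩ := isCompact_univ.exists_isMaxOn ⟨x, Set.mem_univ x⟩ hcont.continuousOn
  have hz' : ∀ w, f w ≤ f z := fun w => hz (Set.mem_univ w)
  have hopen : IsOpen {w | f w = f z} := by
    apply isOpen_of_dir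
    intro e b t ht0 ht1 hw
    have hw' : f (G.at' e b t) = f z := hw
    have hzero := slope_zero (S := S) (y := G.at' e b t) ?_ (h0 _).ge e b t ht0 ht1 rfl
    · obtain ⟨ε, hε, h⟩ := hS e b t ht0 ht1
      refine ⟨ε, hε, fun s hs hs' => ?_⟩
      show f _ = f z
      rw [h s hs hs', hzero, hw']
      simp
    · intro e' b' x' h1 h2 h3
      by_contra hpos
      push Not at hpos
      obtain ⟨ε, hε, h⟩ := hS e' b' x' h1 h2
      have h4 := h (ε / 2) (by linarith) (by linarith)
      rw [h3, hw'] at h4
      have h5 := hz' (G.at' e' b' (x' + ε / 2))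
      have h6 : (1 : ℝ) ≤ (S e' b' x' : ℝ) := by exact_mod_cast hpos
      nlinarith
  have hclosed : IsClosed {w | f w = f z} := isClosed_eq hcont continuous_const
  have huniv : {w | f w = f z} = Set.univ :=
    (isClopen_iff.1 ⟨hclosed, hopen⟩).resolve_left (fun h => by
      have : z ∈ {w | f w = f z} := rfl
      rw [h] at this
      exact this)
  have hx : x ∈ {w | f w = f z} := by rw [huniv]; exact Set.mem_univ x
  have hy : y ∈ {w | f w = f z} := by rw [huniv]; exact Set.mem_univ y
  exact hx.trans hy.symm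

end MetricGraph

end Pool.Agent.V1140.AP
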