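import Pool.Agent.V1140.AP.Bound

/-!
# The zero set of an anti-invariant function with divisor `(p - ιp) - (q - ιq)`
-/

set_option autoImplicit false

namespace Pool.Agent.V1140.AP

open Classical Topology

namespace MetricGraph

variable {G : MetricGraph} {σ : G.E → Bool}

theorem slope_pos_eventually {H : MetricGraph} {f : H.Pt → ℝ} {S : H.E → Bool → ℝ → ℤ}
    (hS : Slopes f S) {e : H.E} {b : Bool} {x : ℝ} (h0 : 0 ≤ x) (h1 : x < H.len e)
    (hf : f (H.at' e b x) = 0) (hpos : 0 < S e b x) :
    ∃ ε > 0, ∀ t, 0 < t → t < ε → 0 < f (H.at' e b (x + t)) := by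
  obtain ⟨ε, hε, h⟩ := hS e b x h0 h1
  refine ⟨ε, hε, fun t ht ht' => ?_⟩
  rw [h t ht.le ht', hf, zero_add]
  have : (0 : ℝ) < S e b x := by exact_mod_cast hpos
  positivity

theorem slope_neg_eventually {H : MetricGraph} {f : H.Pt → ℝ} {S : H.E → Bool → ℝ → ℤ}
    (hS : Slopes f S) {e : H.E} {b : Bool} {x : ℝ} (h0 : 0 ≤ x) (h1 : x < H.len e)
    (hf : f (H.at' e b x) = 0) (hneg : S e b x < 0) :
    ∃ ε > 0, ∀ t, 0 < t → t < ε → f (H.at' e b (x + t)) < 0 := by
  obtain ⟨ε, hε, h⟩ := hS e b x h0 h1
  refine ⟨ε, hε, fun t ht ht' => ?_⟩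
  rw [h t ht.le ht', hf, zero_add]
  have : (S e b x : ℝ) < 0 := by exact_mod_cast hneg
  exact mul_neg_of_neg_of_pos this ht

/-- The sum of the positive slopes at `ιy` is the sum of the negatives of the negative slopes
at `y`. -/
theorem slopeSum_eq_posSum_sub {S : (G.cover σ).E → Bool → ℝ → ℤ}
    (hSι : ∀ e b x, 0 ≤ x → x < (G.cover σ).len e → S (iE e) b x = - S e b x)
    (y : (G.cover σ).Pt) : slopeSum S y = posSum S y - posSum S (iota y) := by
  have h1 : posSum S (iota y) = slopeSum (fun e b x => max (- S e b x) 0) y := by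
    unfold posSum
    rw [← slopeSum_iota (fun e b x => max (S e b x) 0)]
    refine slopeSum_congr fun e b x h0 h1 _ => ?_
    show max (S (iE e) b x) 0 = max (- S e b x) 0
    rw [hSι e b x h0 h1]
  rw [h1]
  unfold posSum
  rw [← slopeSum_sub]
  refine slopeSum_congr fun e b x _ _ _ => ?_
  show S e b x = max (S e b x) 0 - max (- S e b x) 0
  rcases le_total (S e b x) 0 with h | h
  · rw [max_eq_right h, max_eq_left (by omega)]; omega
  · rw [max_eq_left h, max_eq_right (by omega)]; omega

/-- The data extracted from two distinct points with the same image: an anti-invariant function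
`f` whose zero set is `{a₀, ιa₀}`, with exactly one positive direction at `a₀`, of slope `1`,
all the others being negative. -/
structure Cut (f : (G.cover σ).Pt → ℝ) (S : (G.cover σ).E → Bool → ℝ → ℤ)
    (a₀ : (G.cover σ).Pt) (e₀ : (G.cover σ).E) (b₀ : Bool) (x₀ : ℝ) : Prop where
  slopes : Slopes f S
  anti : ∀ y, f (iota y) = - f y
  antiS : ∀ e b x, 0 ≤ x → x < (G.cover σ).len e → S (iE e) b x = - S e b x
  zero : ∀ y, f y = 0 ↔ y = a₀ ∨ y = iota a₀
  hx0 : 0 ≤ x₀
  hx1 : x₀ < (G.cover σ).len e₀
  start : (G.cover σ).at' e₀ b₀ x₀ = a₀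
  one : S e₀ b₀ x₀ = 1
  neg : ∀ e b x, 0 ≤ x → x < (G.cover σ).len e → (G.cover σ).at' e b x = a₀ →
    ¬ (e = e₀ ∧ b = b₀) → S e b x < 0

theorem exists_cut [PreconnectedSpace (G.cover σ).Pt]
    (h2 : ∀ x : G.Pt, IsPreconnected ({x}ᶜ : Set G.Pt))
    {p q : (G.cover σ).Pt} (hpq : p ≠ q) (h : SamePrym p q) :
    ∃ (f : (G.cover σ).Pt → ℝ) (S : (G.cover σ).E → Bool → ℝ → ℤ)
      (a₀ : (G.cover σ).Pt) (e₀ : (G.cover σ).E) (b₀ : Bool) (x₀ : ℝ),
      Cut f S a₀ e₀ b₀ x₀ := by
  obtain ⟨f, S, hS, hD, hι, hSι⟩ := normalise h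
  have hcont := continuous_of_slopes hS
  have hopP : IsOpen {y | 0 < f y} := isOpen_lt continuous_const hcont
  have hopN : IsOpen {y | f y < 0} := isOpen_lt hcont continuous_const
  -- `f` is not identically zero
  have hnz : ∃ y, 0 < f y := by
    by_contra hcon
    push Not at hcon
    have hz : ∀ y, f y = 0 := by
      intro y
      have h1 := hcon y
      have h3 := hcon (iota y)
      rw [hι] at h3
      linarith
    have hS0 : ∀ e b x, 0 ≤ x → x < (G.cover σ).len e → S e b x = 0 := by
      intro e b x h0 h1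
      refine slope_unique (hS e b x h0 h1) ⟨1, one_pos, fun t _ _ => ?_⟩
      rw [hz, hz]
      simp
    have h1 : slopeSum S p = 0 := by
      have h3 : slopeSum S p = slopeSum (fun _ _ _ => 0) p :=
        slopeSum_congr fun e b x h0 h1 _ => hS0 e b x h0 h1
      rw [h3, slopeSum_eq]
      simp
    rw [hD] at h1
    unfold prym at h1
    rw [if_pos rfl, if_neg (iota_ne p).symm, if_neg hpq] at h1
    split_ifs at h1 <;> omega
  -- a zero with a positive direction
  obtain ⟨a₀, ha₀, hpos₀⟩ : ∃ a₀, f a₀ = 0 ∧ 1 ≤ posSum S a₀ := by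
    by_contra hcon
    push Not at hcon
    have hcl : IsOpen ({y | 0 < f y}ᶜ) := by
      apply isOpen_of_dir
      intro e b x h0 h1 hx
      have hx' : f ((G.cover σ).at' e b x) ≤ 0 := not_lt.1 hx
      rcases hx'.lt_or_eq with h3 | h3
      · obtain ⟨ε, hε, h4⟩ := dir_of_isOpen hopN
          (show (G.cover σ).at' e b x ∈ {y | f y < 0} from h3)
        refine ⟨ε, hε, fun t ht ht' => ?_⟩
        have h5 : f ((G.cover σ).at' e b (x + t)) < 0 := h4 t ht ht'
        exact not_lt.2 h5.le
      · obtain ⟨ε, hε, h4⟩ := hS e b x h0 h1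
        refine ⟨ε, hε, fun t ht ht' => ?_⟩
        show ¬ (0 < f ((G.cover σ).at' e b (x + t)))
        rw [h4 t ht ht', h3, zero_add]
        have h5 := hcon _ h3
        have h6 := le_posSum S (b := b) h0 h1 rfl
        have h7 : (S e b x : ℝ) ≤ 0 := by
          have : S e b x ≤ 0 := by omega
          exact_mod_cast this
        exact not_lt.2 (mul_nonpos_of_nonpos_of_nonneg h7 ht)
    obtain ⟨y, hy⟩ := hnz
    rcases isClopen_iff.1 ⟨⟨hcl⟩, hopP⟩ with h3 | h3
    · have : y ∈ {y | 0 < f y} := hy
      rw [h3] at this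
      exact this
    · have : iota y ∈ {y | 0 < f y} := by rw [h3]; exact Set.mem_univ _
      have h4 : 0 < f (iota y) := this
      rw [hι] at h4
      linarith
  have hιa₀ : f (iota a₀) = 0 := by rw [hι, ha₀, neg_zero]
  -- no other zero has a positive direction
  have hother : ∀ z, f z = 0 → z ≠ a₀ → z ≠ iota a₀ → posSum S z = 0 := by
    intro z hz h3 h4
    by_contra hne
    have h5 : 1 ≤ posSum S z := by
      have := posSum_nonneg S z
      omega
    have h6 := bound hS hD {a₀, iota a₀, z} (by
      intro y hy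
      simp only [Finset.mem_insert, Finset.mem_singleton] at hy
      rcases hy with rfl | rfl | rfl
      · exact ha₀
      · exact hιa₀
      · exact hz)
    rw [Finset.sum_insert (by
      simp only [Finset.mem_insert, Finset.mem_singleton, not_or]
      exact ⟨(iota_ne a₀).symm, fun h => h3 h.symm⟩),
      Finset.sum_pair (fun h => h4 h.symm)] at h6
    have h7 := posSum_nonneg S (iota a₀)
    have h8 : 0 < f (iota p) ∧ 0 < f q := by
      by_contra hc
      rw [not_and_or] at hc
      rcases hc with hc | hc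
      · rw [if_neg hc] at h6
        split_ifs at h6 <;> omega
      · rw [if_neg hc] at h6
        split_ifs at h6 <;> omega
    rw [if_pos h8.1, if_pos h8.2] at h6
    have h9 := slopeSum_eq_posSum_sub hSι a₀
    have h10 : slopeSum S a₀ = 1 := by omega
    rw [hD] at h10
    unfold prym at h10
    have h11 : a₀ ≠ p := by
      rintro rfl
      rw [hι, ha₀] at h8
      simp at h8
    have h12 : a₀ ≠ iota q := by
      rintro rfl
      rw [hι] at ha₀
      linarith [h8.2]
    rw [if_neg h11, if_neg h12] at h10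
    split_ifs at h10 <;> omega
  have hflat : ∀ z, f z = 0 → z ≠ a₀ → z ≠ iota a₀ → ∀ e b x, 0 ≤ x → x < (G.cover σ).len e →
      (G.cover σ).at' e b x = z → S e b x = 0 := by
    intro z hz h3 h4 e b x h0 h1 h5
    have h6 := hother z hz h3 h4
    have h7 := hother (iota z) (by rw [hι, hz, neg_zero])
      (fun h => h4 (by rw [← h, iota_iota])) (fun h => h3 (by
        have := congrArg iota h
        rwa [iota_iota, iota_iota] at this))
    have h8 := le_posSum S (b := b) h0 h1 h5
    have h9 := le_posSum S (e := iE e) (b := b) (x := x) h0 h1 (y := iota z) (by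
      rw [← iota_at, h5])
    rw [hSι e b x h0 h1] at h9
    omega
  -- the zero set
  have hzero : ∀ z, f z = 0 → z = a₀ ∨ z = iota a₀ := by
    set U₁ : Set G.Pt := {w | ∀ z : (G.cover σ).Pt, proj z = w → f z ≠ 0} with hU₁
    set U₂ : Set G.Pt := {w | ∀ z : (G.cover σ).Pt, proj z = w →
      f z = 0 ∧ z ≠ a₀ ∧ z ≠ iota a₀} with hU₂
    have ho1 : IsOpen U₁ := by
      apply isOpen_of_dir
      intro e b x h0 h1 hx
      have h3 : f ((G.cover σ).at' (e, false) b x) ≠ 0 := hx _ (proj_at _ _ _)
      have hop : IsOpen {y | f y ≠ 0} := isOpen_ne_fun hcont continuous_const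
      obtain ⟨ε, hε, h4⟩ := dir_of_isOpen hop
        (show (G.cover σ).at' (e, false) b x ∈ {y | f y ≠ 0} from h3)
      refine ⟨ε, hε, fun t ht ht' => ?_⟩
      intro z hz
      have h5 : f ((G.cover σ).at' (e, false) b (x + t)) ≠ 0 := h4 t ht ht'
      have h6 : proj ((G.cover σ).at' (e, false) b (x + t)) = proj z := by
        rw [hz, proj_at]
      rcases eq_or_iota_of_proj h6 with h7 | h7
      · rw [h7]; exact h5
      · rw [h7, hι]; exact neg_ne_zero.2 h5
    have ho2 : IsOpen U₂ := by
      apply isOpen_of_dir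
      intro e b x h0 h1 hx
      obtain ⟨h3, h4, h5⟩ := hx ((G.cover σ).at' (e, false) b x) (proj_at _ _ _)
      have h6 := hflat _ h3 h4 h5 (e, false) b x h0 h1 rfl
      obtain ⟨ε, hε, h7⟩ := hS (e, false) b x h0 h1
      obtain ⟨ε₁, hε₁, h8⟩ := dir_of_isOpen (isOpen_compl_singleton' a₀)
        (show (G.cover σ).at' (e, false) b x ∈ ({a₀}ᶜ : Set _) from h4)
      obtain ⟨ε₂, hε₂, h9⟩ := dir_of_isOpen (isOpen_compl_singleton' (iota a₀))
        (show (G.cover σ).at' (e, false) b x ∈ ({iota a₀}ᶜ : Set _) from h5)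
      refine ⟨min ε (min ε₁ ε₂), lt_min hε (lt_min hε₁ hε₂), fun t ht ht' => ?_⟩
      have ht1 : t < ε := lt_of_lt_of_le ht' (min_le_left _ _)
      have ht2 : t < ε₁ := lt_of_lt_of_le ht' ((min_le_right _ _).trans (min_le_left _ _))
      have ht3 : t < ε₂ := lt_of_lt_of_le ht' ((min_le_right _ _).trans (min_le_right _ _))
      have h10 : f ((G.cover σ).at' (e, false) b (x + t)) = 0 := by
        rw [h7 t ht ht1, h3, h6]
        simp
      have h11 : (G.cover σ).at' (e, false) b (x + t) ≠ a₀ := h8 t ht ht2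
      have h12 : (G.cover σ).at' (e, false) b (x + t) ≠ iota a₀ := h9 t ht ht3
      intro z hz
      have h13 : proj ((G.cover σ).at' (e, false) b (x + t)) = proj z := by
        rw [hz, proj_at]
      rcases eq_or_iota_of_proj h13 with h14 | h14
      · rw [h14]; exact ⟨h10, h11, h12⟩
      · rw [h14]
        refine ⟨by rw [hι, h10, neg_zero], fun h => h12 ?_, fun h => h11 ?_⟩
        · rw [← h, iota_iota]
        · have := congrArg iota h
          rwa [iota_iota, iota_iota] at this
    have hsub : ({proj a₀}ᶜ : Set G.Pt) ⊆ U₁ := by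
      refine (h2 (proj a₀)).subset_left_of_subset_union ho1 ho2 ?_ ?_ ?_
      · rw [Set.disjoint_left]
        intro w hw1 hw2
        obtain ⟨z, hz⟩ := proj_surj (σ := σ) w
        exact hw1 z hz (hw2 z hz).1
      · intro w hw
        obtain ⟨z, hz⟩ := proj_surj (σ := σ) w
        have hne : ∀ z' : (G.cover σ).Pt, proj z' = w → z' ≠ a₀ ∧ z' ≠ iota a₀ := by
          intro z' hz'
          refine ⟨fun h => hw ?_, fun h => hw ?_⟩
          · rw [Set.mem_singleton_iff, ← hz', h]
          · rw [Set.mem_singleton_iff, ← hz', h, proj_iota]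
        by_cases hfz : f z = 0
        · right
          intro z' hz'
          refine ⟨?_, hne z' hz'⟩
          rcases eq_or_iota_of_proj (hz.trans hz'.symm) with h3 | h3
          · rw [h3, hfz]
          · rw [h3, hι, hfz, neg_zero]
        · left
          intro z' hz'
          rcases eq_or_iota_of_proj (hz.trans hz'.symm) with h3 | h3
          · rw [h3]; exact hfz
          · rw [h3, hι]; exact neg_ne_zero.2 hfz
      · obtain ⟨y, hy⟩ := hnz
        refine ⟨proj y, ?_, ?_⟩
        · intro hmem
          rw [Set.mem_singleton_iff] at hmem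
          rcases eq_or_iota_of_proj hmem.symm with h3 | h3
          · rw [h3, ha₀] at hy; exact lt_irrefl _ hy
          · rw [h3, hιa₀] at hy; exact lt_irrefl _ hy
        · intro z hz
          rcases eq_or_iota_of_proj hz.symm with h3 | h3
          · rw [h3]; exact hy.ne'
          · rw [h3, hι]; exact neg_ne_zero.2 hy.ne'
    intro z hz
    by_contra hcon
    rw [not_or] at hcon
    have h3 : proj z ∈ ({proj a₀}ᶜ : Set G.Pt) := by
      intro hmem
      rw [Set.mem_singleton_iff] at hmem
      rcases eq_or_iota_of_proj hmem.symm with h4 | h4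
      · exact hcon.1 h4
      · exact hcon.2 h4
    exact hsub h3 z rfl hz
  have hziff : ∀ y, f y = 0 ↔ y = a₀ ∨ y = iota a₀ := by
    intro y
    refine ⟨hzero y, ?_⟩
    rintro (rfl | rfl)
    · exact ha₀
    · exact hιa₀
  -- no zero slopes at `a₀`
  have hnozero : ∀ e b x, 0 ≤ x → x < (G.cover σ).len e → (G.cover σ).at' e b x = a₀ →
      S e b x ≠ 0 := by
    intro e b x h0 h1 h3 h4
    obtain ⟨ε, hε, h5⟩ := hS e b x h0 h1
    have hmin : 0 < min ε ((G.cover σ).len e - x) := lt_min hε (by linarith)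
    have hlt := half_lt_self hmin
    have hl1 := min_le_left ε ((G.cover σ).len e - x)
    have hl2 := min_le_right ε ((G.cover σ).len e - x)
    set t := min ε ((G.cover σ).len e - x) / 2 with ht
    have h6 := h5 t (by linarith) (by linarith)
    rw [h3, ha₀, h4] at h6
    simp only [Int.cast_zero, zero_mul, add_zero] at h6
    have hco : co b ((G.cover σ).at' e b (x + t)) = x + t :=
      co_spec (by linarith) (by linarith)
    have hco0 : co b a₀ = x := by rw [← h3]; exact co_spec h0 h1
    rcases hzero _ h6 with h7 | h7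
    · rw [h7, hco0] at hco
      linarith
    · rw [h7, co_iota, hco0] at hco
      linarith
  -- a negative direction at `a₀`
  have hneg : ∃ e b x, 0 ≤ x ∧ x < (G.cover σ).len e ∧ (G.cover σ).at' e b x = a₀ ∧
      S e b x < 0 := by
    by_contra hcon
    push Not at hcon
    have hcon' : ∀ e b x, 0 ≤ x → x < (G.cover σ).len e → (G.cover σ).at' e b x = a₀ →
        0 < S e b x := by
      intro e b x h0 h1 h3
      have h4 := hcon e b x h0 h1 h3
      have h5 := hnozero e b x h0 h1 h3
      omega
    set U : Set (G.cover σ).Pt := {y | 0 < f y ∨ y = a₀} with hU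
    have hU1 : IsOpen U := by
      apply isOpen_of_dir
      intro e b x h0 h1 hx
      rcases hx with hx | hx
      · obtain ⟨ε, hε, h4⟩ := dir_of_isOpen hopP
          (show (G.cover σ).at' e b x ∈ {y | 0 < f y} from hx)
        exact ⟨ε, hε, fun t ht ht' => Or.inl (h4 t ht ht')⟩
      · obtain ⟨ε, hε, h4⟩ := slope_pos_eventually hS h0 h1 (by rw [hx, ha₀])
          (hcon' e b x h0 h1 hx)
        refine ⟨ε, hε, fun t ht ht' => ?_⟩
        rcases ht.eq_or_lt with h5 | h5
        · rw [← h5, add_zero]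
          exact Or.inr hx
        · exact Or.inl (h4 t h5 ht')
    have hUc : Uᶜ = {y | f y < 0 ∨ y = iota a₀} := by
      ext y
      simp only [hU, Set.mem_compl_iff, Set.mem_ofPred_eq, not_or, not_lt]
      constructor
      · rintro ⟨h3, h4⟩
        rcases h3.lt_or_eq with h5 | h5
        · exact Or.inl h5
        · exact Or.inr ((hzero y h5).resolve_left h4)
      · rintro (h3 | h3)
        · refine ⟨h3.le, ?_⟩
          rintro rfl
          rw [ha₀] at h3
          exact lt_irrefl _ h3
        · rw [h3]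
          exact ⟨hιa₀.le, iota_ne a₀⟩
    have hU2 : IsOpen Uᶜ := by
      rw [hUc]
      apply isOpen_of_dir
      intro e b x h0 h1 hx
      rcases hx with hx | hx
      · obtain ⟨ε, hε, h4⟩ := dir_of_isOpen hopN
          (show (G.cover σ).at' e b x ∈ {y | f y < 0} from hx)
        exact ⟨ε, hε, fun t ht ht' => Or.inl (h4 t ht ht')⟩
      · have h5 : (G.cover σ).at' (iE e) b x = a₀ := by
          rw [← iota_at, hx, iota_iota]
        have h6 := hcon' (iE e) b x h0 h1 h5
        rw [hSι e b x h0 h1] at h6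
        obtain ⟨ε, hε, h4⟩ := slope_neg_eventually hS h0 h1 (by rw [hx, hιa₀])
          (show S e b x < 0 by omega)
        refine ⟨ε, hε, fun t ht ht' => ?_⟩
        rcases ht.eq_or_lt with h7 | h7
        · rw [← h7, add_zero]
          exact Or.inr hx
        · exact Or.inl (h4 t h7 ht')
    rcases isClopen_iff.1 ⟨⟨hU2⟩, hU1⟩ with h3 | h3
    · have : a₀ ∈ U := Or.inr rfl
      rw [h3] at this
      exact this
    · have : iota a₀ ∈ Uᶜ := by rw [hUc]; exact Or.inr rfl
      rw [h3] at this
      exact this (Set.mem_univ _)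
  obtain ⟨e', b', x', h0', h1', h3', hneg'⟩ := hneg
  have hιpos : 1 ≤ posSum S (iota a₀) := by
    have h9 := le_posSum S (e := iE e') (b := b') (x := x') h0' h1' (y := iota a₀) (by
      rw [← iota_at, h3'])
    rw [hSι e' b' x' h0' h1'] at h9
    omega
  have hsum : posSum S a₀ + posSum S (iota a₀) ≤ 2 := by
    have h6 := bound hS hD {a₀, iota a₀} (by
      intro y hy
      simp only [Finset.mem_insert, Finset.mem_singleton] at hy
      rcases hy with rfl | rfl
      · exact ha₀
      · exact hιa₀)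
    rw [Finset.sum_pair (iota_ne a₀).symm] at h6
    split_ifs at h6 <;> omega
  have hone : posSum S a₀ = 1 := by omega
  obtain ⟨e₀, b₀, x₀, h0, h1, h3, h4⟩ := exists_pos (S := S) (y := a₀) (by omega)
  have h5 := le_posSum S h0 h1 h3
  refine ⟨f, S, a₀, e₀, b₀, x₀, hS, hι, hSι, hziff, h0, h1, h3, by omega, ?_⟩
  intro e b x g0 g1 g3 g4
  have h6 := hnozero e b x g0 g1 g3
  have h7 := add_le_posSum S h0 h1 h3 g0 g1 g3 (by
    intro h8
    rw [Prod.mk.injEq] at h8
    exact g4 ⟨h8.1.symm, h8.2.symm⟩)
  omega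

end MetricGraph

end Pool.Agent.V1140.AP
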